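import Pool.Agent.PPS.Defs
import Pool.Agent.NTot.Mertens

/-!
# Facts about `gg`
-/

set_option autoImplicit false

namespace Pool.Agent.PPS

open Finset

private theorem Ggl_one {l : ℕ} (hl : l.Prime) : (1 : ℝ) ≤ (1 - 1 / (l : ℝ))⁻¹ := by
  have h2 : (2 : ℝ) ≤ (l : ℝ) := by exact_mod_cast hl.two_le
  have h3 : 1 / (l : ℝ) ≤ 1 / 2 := one_div_le_one_div_of_le (by norm_num) h2
  have h4 : 0 < 1 / (l : ℝ) := by positivity
  exact (one_le_inv₀ (by linarith)).mpr (by linarith)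

private theorem Ggl_prod_one (S : Finset ℕ) (hS : ∀ l ∈ S, l.Prime) :
    (1 : ℝ) ≤ ∏ l ∈ S, (1 - 1 / (l : ℝ))⁻¹ := by
  have h : ∏ _l ∈ S, (1 : ℝ) ≤ ∏ l ∈ S, (1 - 1 / (l : ℝ))⁻¹ :=
    Finset.prod_le_prod (fun _ _ => zero_le_one) (fun l hl => Ggl_one (hS l hl))
  rwa [Finset.prod_const_one] at h

theorem gg_one_le (n : ℕ) : 1 ≤ gg n :=
  Ggl_prod_one _ fun _ hl => Nat.prime_of_mem_primeFactors hl

theorem gg_mul_le (a b : ℕ) : gg (a * b) ≤ gg a * gg b := by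
  have ha1 := gg_one_le a
  have hb1 := gg_one_le b
  by_cases h0 : a = 0 ∨ b = 0
  · have hab : a * b = 0 := by
      rcases h0 with h | h
      · rw [h, zero_mul]
      · rw [h, mul_zero]
    have hg0 : gg (a * b) = 1 := by
      rw [hab]; unfold gg; simp
    rw [hg0]
    nlinarith
  · have ha : a ≠ 0 := fun h => h0 (Or.inl h)
    have hb : b ≠ 0 := fun h => h0 (Or.inr h)
    unfold gg
    rw [Nat.primeFactors_mul ha hb, ← Finset.prod_union_inter]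
    have h1 : (1 : ℝ) ≤ ∏ l ∈ a.primeFactors ∩ b.primeFactors, (1 - 1 / (l : ℝ))⁻¹ :=
      Ggl_prod_one _ fun l hl => Nat.prime_of_mem_primeFactors (Finset.mem_inter.mp hl).1
    have h2 : (1 : ℝ) ≤ ∏ l ∈ a.primeFactors ∪ b.primeFactors, (1 - 1 / (l : ℝ))⁻¹ := by
      refine Ggl_prod_one _ fun l hl => ?_
      rcases Finset.mem_union.mp hl with h | h
      · exact Nat.prime_of_mem_primeFactors h
      · exact Nat.prime_of_mem_primeFactors h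
    nlinarith

theorem gg_prime_sq {l : ℕ} (hl : 2 ≤ l) : ((1 - 1 / (l : ℝ))⁻¹) ^ 2 ≤ 1 + 8 / l := by
  have h2 : (2 : ℝ) ≤ (l : ℝ) := by exact_mod_cast hl
  have h0 : (0 : ℝ) < (l : ℝ) := by linarith
  have h1 : (0 : ℝ) < (l : ℝ) - 1 := by linarith
  have e1 : (1 - 1 / (l : ℝ))⁻¹ = (l : ℝ) / ((l : ℝ) - 1) := by
    have : (1 - 1 / (l : ℝ)) = ((l : ℝ) - 1) / (l : ℝ) := by field_simp
    rw [this, inv_div]
  have e2 : 1 + 8 / (l : ℝ) = ((l : ℝ) + 8) / (l : ℝ) := by field_simp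
  rw [e1, e2, div_pow, div_le_div_iff₀ (by positivity) h0]
  nlinarith [mul_nonneg (sub_nonneg.mpr h2) (sub_nonneg.mpr h2), mul_pos h0 h0]

private theorem Ggl_sum (n : ℕ) : ∑ t ∈ Finset.Icc 1 n, (1 : ℝ) / (t : ℝ) ^ 2 ≤ 2 := by
  have h : ∀ m : ℕ, ∑ t ∈ Finset.Icc 1 (m + 1), (1 : ℝ) / (t : ℝ) ^ 2 ≤ 2 - 1 / ((m : ℝ) + 1) := by
    intro m
    induction m with
    | zero => norm_num
    | succ m ih =>
      rw [Finset.sum_Icc_succ_top (by omega)]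
      have hm : (0 : ℝ) < (m : ℝ) + 1 := by positivity
      have hm2 : (0 : ℝ) < (m : ℝ) + 1 + 1 := by positivity
      have key : (1 : ℝ) / ((m : ℝ) + 1 + 1) ^ 2 ≤ 1 / ((m : ℝ) + 1) - 1 / ((m : ℝ) + 1 + 1) := by
        rw [div_sub_div _ _ hm.ne' hm2.ne', div_le_div_iff₀ (by positivity) (by positivity)]
        nlinarith
      push_cast
      linarith
  rcases Nat.eq_zero_or_pos n with h0 | h0
  · rw [h0]; norm_num
  · obtain ⟨m, rfl⟩ : ∃ m, n = m + 1 := ⟨n - 1, by omega⟩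
    have := h m
    have h2 : (0 : ℝ) ≤ 1 / ((m : ℝ) + 1) := by positivity
    linarith

private theorem Ggl_exp {l : ℕ} (hl : l.Prime) :
    (1 - 1 / (l : ℝ))⁻¹ ≤ Real.exp (1 / (l : ℝ) + 2 * (1 / (l : ℝ) ^ 2)) := by
  have h2 : (2 : ℝ) ≤ (l : ℝ) := by exact_mod_cast hl.two_le
  have h0 : (0 : ℝ) < (l : ℝ) := by linarith
  have h1 : (0 : ℝ) < (l : ℝ) - 1 := by linarith
  have e1 : (1 - 1 / (l : ℝ))⁻¹ = 1 / ((l : ℝ) - 1) + 1 := by
    have : (1 - 1 / (l : ℝ)) = ((l : ℝ) - 1) / (l : ℝ) := by field_simp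
    rw [this, inv_div]
    field_simp
    ring
  rw [e1]
  refine (Real.add_one_le_exp _).trans (Real.exp_le_exp.mpr ?_)
  have e3 : 1 / (l : ℝ) + 2 * (1 / (l : ℝ) ^ 2) = ((l : ℝ) + 2) / (l : ℝ) ^ 2 := by
    field_simp
  rw [e3, div_le_div_iff₀ h1 (by positivity)]
  nlinarith

theorem prodinv : ∃ C : ℝ, 0 < C ∧ ∀ z : ℕ, 2 ≤ z →
    ∏ l ∈ NTot.PZ z, (1 - 1 / (l : ℝ))⁻¹ ≤ C * Real.log z := by
  obtain ⟨C, hC, h⟩ := NTot.mertens_inv
  have key : ∀ z : ℕ, 3 ≤ z →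
      ∏ l ∈ NTot.PZ z, (1 - 1 / (l : ℝ))⁻¹ ≤ Real.exp (C + 4) * Real.log z := by
    intro z hz
    have hz3 : (3 : ℝ) ≤ (z : ℝ) := by exact_mod_cast hz
    have hlog : 0 < Real.log z := Real.log_pos (by linarith)
    have h1 : ∏ l ∈ NTot.PZ z, (1 - 1 / (l : ℝ))⁻¹ ≤
        ∏ l ∈ NTot.PZ z, Real.exp (1 / (l : ℝ) + 2 * (1 / (l : ℝ) ^ 2)) := by
      refine Finset.prod_le_prod ?_ ?_
      · intro l hl
        exact zero_le_one.trans (Ggl_one (NTot.mem_PZ.mp hl).1)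
      · intro l hl
        exact Ggl_exp (NTot.mem_PZ.mp hl).1
    rw [← Real.exp_sum, Finset.sum_add_distrib, ← Finset.mul_sum] at h1
    have h2 : ∑ l ∈ NTot.PZ z, (1 : ℝ) / (l : ℝ) ^ 2 ≤ 2 := by
      refine le_trans ?_ (Ggl_sum z)
      refine Finset.sum_le_sum_of_subset_of_nonneg ?_ ?_
      · intro l hl
        have := NTot.mem_PZ.mp hl
        exact Finset.mem_Icc.mpr ⟨this.1.one_lt.le, this.2⟩
      · intro l _ _
        positivity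
    have h3 := h z hz
    refine h1.trans ?_
    have h4 : ∑ l ∈ NTot.PZ z, (1 : ℝ) / (l : ℝ) + 2 * ∑ l ∈ NTot.PZ z, (1 : ℝ) / (l : ℝ) ^ 2 ≤
        (C + 4) + Real.log (Real.log z) := by linarith
    refine (Real.exp_le_exp.mpr h4).trans (le_of_eq ?_)
    rw [Real.exp_add, Real.exp_log hlog]
  refine ⟨2 * Real.exp (C + 4), by positivity, ?_⟩
  intro z hz
  have hE : 0 < Real.exp (C + 4) := Real.exp_pos _
  rcases Nat.lt_or_ge z 3 with h3 | h3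
  · have hz2 : z = 2 := by omega
    subst hz2
    have h1 := key 3 le_rfl
    have h2 : ∏ l ∈ NTot.PZ 2, (1 - 1 / (l : ℝ))⁻¹ ≤ ∏ l ∈ NTot.PZ 3, (1 - 1 / (l : ℝ))⁻¹ := by
      have hsub : NTot.PZ 2 ⊆ NTot.PZ 3 := by
        intro l hl
        have := NTot.mem_PZ.mp hl
        exact NTot.mem_PZ.mpr ⟨this.1, this.2.trans (by norm_num)⟩
      rw [← Finset.prod_sdiff hsub]
      have h5 : (1 : ℝ) ≤ ∏ l ∈ NTot.PZ 3 \ NTot.PZ 2, (1 - 1 / (l : ℝ))⁻¹ :=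
        Ggl_prod_one _ fun l hl => (NTot.mem_PZ.mp (Finset.mem_sdiff.mp hl).1).1
      have h6 : (1 : ℝ) ≤ ∏ l ∈ NTot.PZ 2, (1 - 1 / (l : ℝ))⁻¹ :=
        Ggl_prod_one _ fun l hl => (NTot.mem_PZ.mp hl).1
      nlinarith
    have h4 : Real.log ((3 : ℕ) : ℝ) ≤ 2 * Real.log ((2 : ℕ) : ℝ) := by
      have e : 2 * Real.log ((2 : ℕ) : ℝ) = Real.log 4 := by
        push_cast
        have : (4 : ℝ) = 2 ^ 2 := by norm_num
        rw [this, Real.log_pow]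
        push_cast; ring
      rw [e]
      exact Real.log_le_log (by norm_num) (by norm_num)
    calc ∏ l ∈ NTot.PZ 2, (1 - 1 / (l : ℝ))⁻¹ ≤ ∏ l ∈ NTot.PZ 3, (1 - 1 / (l : ℝ))⁻¹ := h2
      _ ≤ Real.exp (C + 4) * Real.log ((3 : ℕ) : ℝ) := h1
      _ ≤ Real.exp (C + 4) * (2 * Real.log ((2 : ℕ) : ℝ)) :=
          mul_le_mul_of_nonneg_left h4 hE.le
      _ = 2 * Real.exp (C + 4) * Real.log ((2 : ℕ) : ℝ) := by ring
  · refine (key z h3).trans ?_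
    have hz3 : (3 : ℝ) ≤ (z : ℝ) := by exact_mod_cast h3
    have hlog : 0 < Real.log z := Real.log_pos (by linarith)
    have : 0 < Real.exp (C + 4) * Real.log z := by positivity
    linarith

end Pool.Agent.PPS
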