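import Pool.Agent.PPS.Defs

/-!
# Prefix lemma (difficulty 2)

Proof: if `∏ l ∈ S, l ≤ z` take the left alternative. Otherwise the set of natural numbers `x` with
`z < ∏ l ∈ S.filter (· < x), l` is not empty (it contains `S.sup id + 1`, as then the filter is `S`);
let `x` be its least element (`Nat.find`). `x ≠ 0` because the product over the empty set is `1 ≤ z`.
Put `q = x - 1`. By minimality `∏ l ∈ S.filter (· < q), l ≤ z`; if `q ∉ S` the filters for `q` and
`q + 1` agree, a contradiction; so `q ∈ S` and `S.filter (· < q + 1) = insert q (S.filter (· < q))`.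
-/

set_option autoImplicit false

namespace Pool.Agent.PPS

open Finset

theorem pfx (S : Finset ℕ) (z : ℝ) (hz : 1 ≤ z) :
    ((∏ l ∈ S, l : ℕ) : ℝ) ≤ z ∨ ∃ q ∈ S, ((∏ l ∈ S.filter (fun l => l < q), l : ℕ) : ℝ) ≤ z ∧
      z < ((∏ l ∈ S.filter (fun l => l < q), l : ℕ) : ℝ) * q := by
  classical
  by_cases h : ((∏ l ∈ S, l : ℕ) : ℝ) ≤ z
  · exact Or.inl h
  right
  have hS : S.filter (fun l => l < S.sup id + 1) = S := by
    apply Finset.filter_true_of_mem
    intro l hl
    have : id l ≤ S.sup id := Finset.le_sup hl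
    exact Nat.lt_succ_of_le this
  have hex : ∃ x : ℕ, z < ((∏ l ∈ S.filter (fun l => l < x), l : ℕ) : ℝ) := by
    refine ⟨S.sup id + 1, ?_⟩
    rw [hS]
    exact not_le.1 h
  obtain ⟨x, hx, hmin⟩ : ∃ x : ℕ, z < ((∏ l ∈ S.filter (fun l => l < x), l : ℕ) : ℝ) ∧
      ∀ y < x, ¬ z < ((∏ l ∈ S.filter (fun l => l < y), l : ℕ) : ℝ) :=
    ⟨Nat.find hex, Nat.find_spec hex, fun y hy => Nat.find_min hex hy⟩
  rcases x with _ | q
  · exfalso
    have h0 : S.filter (fun l => l < 0) = ∅ := by
      apply Finset.filter_false_of_mem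
      intro l _
      exact Nat.not_lt_zero l
    rw [h0, Finset.prod_empty] at hx
    simp only [Nat.cast_one] at hx
    linarith
  · have hq := hmin q (Nat.lt_succ_self q)
    have hqS : q ∈ S := by
      by_contra hn
      apply hq
      have hf : S.filter (fun l => l < q + 1) = S.filter (fun l => l < q) := by
        apply Finset.filter_congr
        intro l hl
        constructor
        · intro h1
          rcases Nat.lt_succ_iff_lt_or_eq.1 h1 with h2 | h2
          · exact h2
          · exact absurd (h2 ▸ hl) hn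
        · intro h1
          exact Nat.lt_succ_of_lt h1
      rw [hf] at hx
      exact hx
    refine ⟨q, hqS, not_lt.1 hq, ?_⟩
    have hf : S.filter (fun l => l < q + 1) = insert q (S.filter (fun l => l < q)) := by
      ext l
      simp only [Finset.mem_filter, Finset.mem_insert]
      constructor
      · rintro ⟨h1, h2⟩
        rcases Nat.lt_succ_iff_lt_or_eq.1 h2 with h3 | h3
        · exact Or.inr ⟨h1, h3⟩
        · exact Or.inl h3
      · rintro (h1 | ⟨h1, h2⟩)
        · subst h1
          exact ⟨hqS, Nat.lt_succ_self _⟩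
        · exact ⟨h1, Nat.lt_succ_of_lt h2⟩
    have hnot : q ∉ S.filter (fun l => l < q) := by
      simp
    rw [hf, Finset.prod_insert hnot] at hx
    push_cast at hx ⊢
    linarith

end Pool.Agent.PPS
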