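import Pool.Agent.PPS.Avo

/-!
# Average of the number of cube roots (difficulty 3)

Proof (section (F) of the notes). For fixed `y1`,
`∑ y2, rr a y1 y2 * gg |y2| = ∑ t < a, ∑ y2 ∈ II A2 H2 m r2, a ∣ t^3 y1 - y2, gg |y2|`, and for fixed `t`
these `y2` all lie in `II A2 H2 (a * m) c` for one `c` (`a, m` coprime; if there is no such `y2` the
sum is `0`, otherwise take `c` one of them): `avo` with `M = a * m` bounds it by
`C gg (a m) H2 / (a m)`, and `gg (a m) ≤ gg a gg m`. Sum over the `a` values of `t`, then over `y1` and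
`p` by `avo` with `M = m`.
-/

set_option autoImplicit false

namespace Pool.Agent.PPS

open Finset

theorem avt : ∃ C : ℝ, 0 < C ∧ ∀ (A0 A1 A2 r0 r1 r2 : ℤ) (H0 H1 H2 a m : ℕ) (B : ℝ), 1 ≤ a →
    1 ≤ m → Nat.Coprime a m → 2 ≤ B →
    (∀ x ∈ Ico A0 (A0 + H0), ((|x| : ℤ) : ℝ) ≤ B) →
    (∀ x ∈ Ico A1 (A1 + H1), ((|x| : ℤ) : ℝ) ≤ B) →
    (∀ x ∈ Ico A2 (A2 + H2), ((|x| : ℤ) : ℝ) ≤ B) →
    a * m * Real.log B ≤ H0 → a * m * Real.log B ≤ H1 → a * m * Real.log B ≤ H2 →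
    ∑ p ∈ II A0 H0 m r0, ∑ y1 ∈ II A1 H1 m r1, ∑ y2 ∈ II A2 H2 m r2,
      (rr a y1 y2 : ℝ) * (gg p.natAbs * gg y1.natAbs * gg y2.natAbs) ≤
      C * gg m ^ 3 * gg a * (H0 * H1 * H2 / (m : ℝ) ^ 3) := by
  obtain ⟨C0, hC0, h0⟩ := avo
  refine ⟨C0 ^ 3, by positivity, ?_⟩
  intro A0 A1 A2 r0 r1 r2 H0 H1 H2 a m B ha hm hcop hB hb0 hb1 hb2 hH0 hH1 hH2
  have hlog : 0 ≤ Real.log B := Real.log_nonneg (by linarith)
  have hmR : (1 : ℝ) ≤ m := by exact_mod_cast hm
  have haR : (1 : ℝ) ≤ a := by exact_mod_cast ha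
  have hmlog : (m : ℝ) * Real.log B ≤ a * m * Real.log B := by
    have h1 : (m : ℝ) * Real.log B ≤ a * (m * Real.log B) :=
      le_mul_of_one_le_left (by positivity) haR
    rwa [← mul_assoc] at h1
  have hp := h0 A0 r0 H0 m B hm hB hb0 (hmlog.trans hH0)
  have hy := h0 A1 r1 H1 m B hm hB hb1 (hmlog.trans hH1)
  have ggp : ∀ n : ℕ, 0 ≤ gg n := fun n => zero_le_one.trans (gg_one_le n)
  have key : ∀ y1 : ℤ, ∑ y2 ∈ II A2 H2 m r2, (rr a y1 y2 : ℝ) * gg y2.natAbs ≤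
      C0 * (gg a * gg m) * (H2 / m) := by
    intro y1
    have e1 : ∀ y2 : ℤ, (rr a y1 y2 : ℝ) * gg y2.natAbs =
        ∑ t ∈ range a, if (a : ℤ) ∣ (t : ℤ) ^ 3 * y1 - y2 then gg y2.natAbs else 0 := by
      intro y2
      rw [← Finset.sum_filter, Finset.sum_const, nsmul_eq_mul]
      rfl
    rw [Finset.sum_congr rfl (fun y2 _ => e1 y2), Finset.sum_comm]
    have e2 : ∀ t ∈ range a, ∑ y2 ∈ II A2 H2 m r2,
        (if (a : ℤ) ∣ (t : ℤ) ^ 3 * y1 - y2 then gg y2.natAbs else 0) ≤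
        C0 * gg (a * m) * (H2 / ((a * m : ℕ) : ℝ)) := by
      intro t _
      rw [← Finset.sum_filter]
      rcases ((II A2 H2 m r2).filter
        (fun y2 : ℤ => (a : ℤ) ∣ (t : ℤ) ^ 3 * y1 - y2)).eq_empty_or_nonempty with hE | ⟨c, hc⟩
      · rw [hE, Finset.sum_empty]
        have := ggp (a * m)
        positivity
      · have hsub : (II A2 H2 m r2).filter (fun y2 : ℤ => (a : ℤ) ∣ (t : ℤ) ^ 3 * y1 - y2) ⊆
            II A2 H2 (a * m) c := by
          intro y hy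
          rw [Finset.mem_filter] at hy hc
          obtain ⟨hy1, hy2⟩ := hy
          obtain ⟨hc1, hc2⟩ := hc
          unfold II at hy1 hc1 ⊢
          rw [Finset.mem_filter] at hy1 hc1 ⊢
          refine ⟨hy1.1, ?_, hy1.2.2⟩
          have g1 : (m : ℤ) ∣ y - c := by
            have := dvd_sub hy1.2.1 hc1.2.1
            rwa [sub_sub_sub_cancel_right] at this
          have g2 : (a : ℤ) ∣ y - c := by
            have := dvd_sub hc2 hy2
            rwa [sub_sub_sub_cancel_left] at this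
          have hcz : IsCoprime (a : ℤ) (m : ℤ) := Nat.isCoprime_iff_coprime.mpr hcop
          push_cast
          exact hcz.mul_dvd g2 g1
        refine (Finset.sum_le_sum_of_subset_of_nonneg hsub (fun _ _ _ => ggp _)).trans ?_
        refine h0 A2 c H2 (a * m) B (Nat.mul_pos ha hm) hB hb2 ?_
        push_cast
        exact hH2
    refine (Finset.sum_le_sum e2).trans ?_
    rw [Finset.sum_const, Finset.card_range, nsmul_eq_mul]
    have e3 : (a : ℝ) * (C0 * gg (a * m) * (H2 / ((a * m : ℕ) : ℝ))) =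
        C0 * gg (a * m) * (H2 / m) := by
      push_cast
      have ha0 : (a : ℝ) ≠ 0 := by positivity
      have hm0 : (m : ℝ) ≠ 0 := by positivity
      field_simp
    rw [e3]
    have e4 := gg_mul_le a m
    gcongr
  have hK : (0 : ℝ) ≤ C0 * (gg a * gg m) * (H2 / m) := by
    have := ggp a
    have := ggp m
    positivity
  calc ∑ p ∈ II A0 H0 m r0, ∑ y1 ∈ II A1 H1 m r1, ∑ y2 ∈ II A2 H2 m r2,
      (rr a y1 y2 : ℝ) * (gg p.natAbs * gg y1.natAbs * gg y2.natAbs)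
      ≤ ∑ p ∈ II A0 H0 m r0, ∑ y1 ∈ II A1 H1 m r1,
        gg p.natAbs * (gg y1.natAbs * (C0 * (gg a * gg m) * (H2 / m))) := by
        refine Finset.sum_le_sum fun p _ => Finset.sum_le_sum fun y1 _ => ?_
        have e5 : ∑ y2 ∈ II A2 H2 m r2,
            (rr a y1 y2 : ℝ) * (gg p.natAbs * gg y1.natAbs * gg y2.natAbs) =
            gg p.natAbs * (gg y1.natAbs *
              ∑ y2 ∈ II A2 H2 m r2, (rr a y1 y2 : ℝ) * gg y2.natAbs) := by
          rw [Finset.mul_sum, Finset.mul_sum]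
          refine Finset.sum_congr rfl fun y2 _ => ?_
          ring
        rw [e5]
        exact mul_le_mul_of_nonneg_left (mul_le_mul_of_nonneg_left (key y1) (ggp _)) (ggp _)
    _ = (∑ p ∈ II A0 H0 m r0, gg p.natAbs) * (∑ y1 ∈ II A1 H1 m r1, gg y1.natAbs) *
        (C0 * (gg a * gg m) * (H2 / m)) := by
        rw [Finset.sum_mul_sum, Finset.sum_mul]
        refine Finset.sum_congr rfl fun p _ => ?_
        rw [Finset.sum_mul]
        refine Finset.sum_congr rfl fun y1 _ => ?_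
        ring
    _ ≤ (C0 * gg m * (H0 / m)) * (C0 * gg m * (H1 / m)) * (C0 * (gg a * gg m) * (H2 / m)) := by
        refine mul_le_mul_of_nonneg_right ?_ hK
        refine mul_le_mul hp hy (Finset.sum_nonneg fun _ _ => ggp _) ?_
        have := ggp m
        positivity
    _ = C0 ^ 3 * gg m ^ 3 * gg a * (H0 * H1 * H2 / (m : ℝ) ^ 3) := by
        have hm0 : (m : ℝ) ≠ 0 := by positivity
        field_simp

end Pool.Agent.PPS
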