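import Pool.Agent.PPS.Ggl

/-!
# Rankin's bound (difficulty 4)
-/

set_option autoImplicit false

namespace Pool.Agent.PPS

open Finset

private theorem sum_prod_le (h : ℕ → ℝ) (hh : ∀ l, 0 ≤ h l) (P : Finset ℕ) (F : Finset ℕ)
    (hF : ∀ a ∈ F, Squarefree a ∧ a.primeFactors ⊆ P) :
    ∑ a ∈ F, ∏ l ∈ a.primeFactors, h l ≤ ∏ l ∈ P, (1 + h l) := by
  classical
  rw [prod_one_add]
  have hinj : Set.InjOn (fun a : ℕ => a.primeFactors) (F : Set ℕ) := by
    intro a ha b hb hab
    have h1 := Nat.prod_primeFactors_of_squarefree (hF a ha).1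
    have h2 := Nat.prod_primeFactors_of_squarefree (hF b hb).1
    simp only at hab
    rw [← h1, ← h2, hab]
  rw [← sum_image (f := fun S : Finset ℕ => ∏ l ∈ S, h l) hinj]
  apply sum_le_sum_of_subset_of_nonneg
  · intro S hS
    rw [mem_image] at hS
    obtain ⟨a, ha, rfl⟩ := hS
    exact mem_powerset.2 (hF a ha).2
  · intro S _ _
    exact prod_nonneg (fun l _ => hh l)

private theorem sum_sq_le (z : ℕ) : ∑ l ∈ NTot.PZ z, 1 / ((l : ℝ) ^ 2) ≤ 2 := by
  have h1 : ∀ n : ℕ, ∑ l ∈ Icc 1 (n + 1), 1 / ((l : ℝ) ^ 2) ≤ 2 - 1 / ((n : ℝ) + 1) := by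
    intro n
    induction n with
    | zero => norm_num
    | succ n ih =>
      rw [Finset.sum_Icc_succ_top (by omega)]
      have hn : (0 : ℝ) ≤ n := Nat.cast_nonneg n
      have h2 : 1 / (((n + 1 + 1 : ℕ) : ℝ) ^ 2) ≤ 1 / ((n : ℝ) + 1) - 1 / (((n + 1 : ℕ) : ℝ) + 1) := by
        push_cast
        rw [div_sub_div _ _ (by positivity) (by positivity), div_le_div_iff₀ (by positivity)
          (by positivity)]
        nlinarith
      push_cast at h2 ih ⊢
      linarith
  have h2 : ∑ l ∈ NTot.PZ z, 1 / ((l : ℝ) ^ 2) ≤ ∑ l ∈ Icc 1 (z + 1), 1 / ((l : ℝ) ^ 2) := by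
    apply sum_le_sum_of_subset_of_nonneg
    · intro l hl
      have h := NTot.mem_PZ.1 hl
      have := h.1.one_lt
      rw [mem_Icc]
      omega
    · intro l _ _
      positivity
  have h3 := h1 z
  have h4 : (0 : ℝ) ≤ 1 / ((z : ℝ) + 1) := by positivity
  linarith

private theorem exp_conv {A t : ℝ} (h0 : 0 ≤ t) (h1 : t ≤ 1) :
    Real.exp (A * t) ≤ 1 + (Real.exp A - 1) * t := by
  have h := convexOn_exp.2 (Set.mem_univ (0 : ℝ)) (Set.mem_univ A) (sub_nonneg.2 h1) h0
    (by ring)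
  simp only [smul_eq_mul, mul_zero, zero_add, Real.exp_zero, mul_one] at h
  rw [mul_comm A t]
  linarith

private theorem h_le {A w : ℝ} (hA : 0 ≤ A) (hw : 2 ≤ w) {l : ℕ} (hl : 2 ≤ l) (hlw : (l : ℝ) ≤ w) :
    ((1 - 1 / (l : ℝ))⁻¹) ^ 2 * ((l : ℝ) ^ (A / Real.log w) / l) ≤
      1 / l + (Real.exp A - 1) / Real.log w * (Real.log l / l) +
        8 * Real.exp A * (1 / (l : ℝ) ^ 2) := by
  have hl2 : (2 : ℝ) ≤ l := by exact_mod_cast hl
  have hl0 : (0 : ℝ) < l := by linarith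
  have hlw0 : 0 < Real.log w := Real.log_pos (by linarith)
  have hll : 0 < Real.log l := Real.log_pos (by linarith)
  have hle : Real.log l ≤ Real.log w := Real.log_le_log hl0 hlw
  have ht1 : Real.log l / Real.log w ≤ 1 := by rw [div_le_one hlw0]; exact hle
  have ht0 : 0 ≤ Real.log l / Real.log w := by positivity
  have hE : (1 : ℝ) ≤ Real.exp A := Real.one_le_exp hA
  have hpow : (l : ℝ) ^ (A / Real.log w) = Real.exp (A * (Real.log l / Real.log w)) := by
    rw [Real.rpow_def_of_pos hl0]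
    congr 1
    field_simp
  have hp1 : (l : ℝ) ^ (A / Real.log w) ≤ 1 + (Real.exp A - 1) * (Real.log l / Real.log w) := by
    rw [hpow]; exact exp_conv ht0 ht1
  have hp2 : (l : ℝ) ^ (A / Real.log w) ≤ Real.exp A := by
    rw [hpow]
    apply Real.exp_le_exp.2
    nlinarith
  have hp0 : 0 < (l : ℝ) ^ (A / Real.log w) := Real.rpow_pos_of_pos hl0 _
  have hg := gg_prime_sq hl
  calc ((1 - 1 / (l : ℝ))⁻¹) ^ 2 * ((l : ℝ) ^ (A / Real.log w) / l)
      ≤ (1 + 8 / l) * ((l : ℝ) ^ (A / Real.log w) / l) :=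
        mul_le_mul_of_nonneg_right hg (by positivity)
    _ = (l : ℝ) ^ (A / Real.log w) / l + 8 * (l : ℝ) ^ (A / Real.log w) * (1 / (l : ℝ) ^ 2) := by
        field_simp
    _ ≤ (1 + (Real.exp A - 1) * (Real.log l / Real.log w)) / l +
        8 * Real.exp A * (1 / (l : ℝ) ^ 2) := by
        apply add_le_add
        · exact div_le_div_of_nonneg_right hp1 hl0.le
        · apply mul_le_mul_of_nonneg_right _ (by positivity)
          linarith
    _ = _ := by
        field_simp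

theorem rnk (A : ℝ) (hA : 0 ≤ A) : ∃ C : ℝ, 0 < C ∧ ∀ (w Y : ℝ) (F : Finset ℕ), 2 ≤ w → 0 < Y →
    (∀ a ∈ F, Squarefree a ∧ Y < a ∧ ∀ l ∈ a.primeFactors, (l : ℝ) ≤ w) →
    ∑ a ∈ F, gg a ^ 2 / (a : ℝ) ≤ C * Real.exp (-(A * Real.log Y / Real.log w)) * Real.log w := by
  obtain ⟨C1, hC1, hM1⟩ := NTot.mertens_inv
  obtain ⟨C2, hC2, hM2⟩ := NTot.mertens_log
  have hl2 : 0 < Real.log 2 := Real.log_pos (by norm_num)
  refine ⟨Real.exp (C1 + (Real.exp A - 1) * (1 + C2 / Real.log 2) + 16 * Real.exp A),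
    Real.exp_pos _, ?_⟩
  intro w Y F hw hY hF
  have hw0 : 0 < w := by linarith
  have hlw : 0 < Real.log w := Real.log_pos (by linarith)
  have hl2w : Real.log 2 ≤ Real.log w := Real.log_le_log (by norm_num) hw
  set s : ℝ := A / Real.log w with hs
  have hs0 : 0 ≤ s := by positivity
  set h : ℕ → ℝ := fun l => ((1 - 1 / (l : ℝ))⁻¹) ^ 2 * ((l : ℝ) ^ s / l) with hh
  have hh0 : ∀ l, 0 ≤ h l := by
    intro l
    simp only [hh]
    positivity
  have hE : (1 : ℝ) ≤ Real.exp A := Real.one_le_exp hA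
  set z : ℕ := ⌊w⌋₊ with hz
  have hz2 : 2 ≤ z := Nat.le_floor (by exact_mod_cast hw)
  have hzw : (z : ℝ) ≤ w := Nat.floor_le hw0.le
  -- termwise
  have h1 : ∀ a ∈ F, gg a ^ 2 / (a : ℝ) ≤ Y ^ (-s) * ∏ l ∈ a.primeFactors, h l := by
    intro a ha
    obtain ⟨hsf, hYa, _⟩ := hF a ha
    have ha0 : (0 : ℝ) < a := by linarith
    have e1 : ∏ l ∈ a.primeFactors, h l = gg a ^ 2 * ((a : ℝ) ^ s / a) := by
      simp only [hh]
      rw [prod_mul_distrib, prod_div_distrib, prod_pow]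
      have e2 : ∏ l ∈ a.primeFactors, (l : ℝ) = a := by
        rw [← Nat.cast_prod, Nat.prod_primeFactors_of_squarefree hsf]
      have e3 : ∏ l ∈ a.primeFactors, (l : ℝ) ^ s = (a : ℝ) ^ s := by
        rw [Real.finsetProd_rpow _ _ (fun l _ => Nat.cast_nonneg l), e2]
      rw [e2, e3]
      rfl
    rw [e1]
    have e4 : 1 ≤ Y ^ (-s) * (a : ℝ) ^ s := by
      rw [Real.rpow_neg hY.le, inv_mul_eq_div, one_le_div (Real.rpow_pos_of_pos hY s)]
      exact Real.rpow_le_rpow hY.le hYa.le hs0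
    have e5 : 0 ≤ gg a ^ 2 / (a : ℝ) := by positivity
    calc gg a ^ 2 / (a : ℝ) ≤ (gg a ^ 2 / (a : ℝ)) * (Y ^ (-s) * (a : ℝ) ^ s) :=
          le_mul_of_one_le_right e5 e4
      _ = _ := by ring
  have h2 : ∑ a ∈ F, ∏ l ∈ a.primeFactors, h l ≤ ∏ l ∈ NTot.PZ z, (1 + h l) := by
    apply sum_prod_le h hh0
    intro a ha
    obtain ⟨hsf, _, hp⟩ := hF a ha
    refine ⟨hsf, ?_⟩
    intro l hl
    rw [NTot.mem_PZ]
    exact ⟨Nat.prime_of_mem_primeFactors hl, Nat.le_floor (hp l hl)⟩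
  have h3 : ∏ l ∈ NTot.PZ z, (1 + h l) ≤ Real.exp (∑ l ∈ NTot.PZ z, h l) := by
    rw [Real.exp_sum]
    apply prod_le_prod
    · intro l _
      have := hh0 l
      linarith
    · intro l _
      have := Real.add_one_le_exp (h l)
      linarith
  have h4 : ∑ l ∈ NTot.PZ z, h l ≤ Real.log (Real.log w) +
      (C1 + (Real.exp A - 1) * (1 + C2 / Real.log 2) + 16 * Real.exp A) := by
    have h5 : ∑ l ∈ NTot.PZ z, h l ≤ ∑ l ∈ NTot.PZ z, ((1 : ℝ) / l +
        (Real.exp A - 1) / Real.log w * (Real.log l / l) +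
        8 * Real.exp A * (1 / (l : ℝ) ^ 2)) := by
      apply sum_le_sum
      intro l hl
      obtain ⟨hp, hlz⟩ := NTot.mem_PZ.1 hl
      have hlz' : (l : ℝ) ≤ z := by exact_mod_cast hlz
      exact h_le hA hw hp.two_le (hlz'.trans hzw)
    rw [sum_add_distrib, sum_add_distrib, ← mul_sum, ← mul_sum] at h5
    have h6 : ∑ l ∈ NTot.PZ z, (1 : ℝ) / l ≤ Real.log (Real.log w) + C1 := by
      by_cases hz3 : 3 ≤ z
      · have h7 := hM1 z hz3
        have hz3r : (3 : ℝ) ≤ z := by exact_mod_cast hz3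
        have h8 : Real.log (Real.log z) ≤ Real.log (Real.log w) := by
          apply Real.log_le_log
          · exact Real.log_pos (by linarith)
          · exact Real.log_le_log (by linarith) hzw
        linarith
      · have hz' : z = 2 := by omega
        rw [hz']
        have e1 : NTot.PZ 2 = {2} := by decide
        rw [e1, sum_singleton]
        have e2 : Real.log (Real.log 2) ≤ Real.log (Real.log w) := Real.log_le_log hl2 hl2w
        have e3 : 1 - (Real.log 2)⁻¹ ≤ Real.log (Real.log 2) :=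
          Real.one_sub_inv_le_log_of_pos hl2
        have e4 : (Real.log 2)⁻¹ ≤ 1.45 := by
          rw [inv_le_comm₀ hl2 (by norm_num)]
          have := Real.log_two_gt_d9
          norm_num at this ⊢
          linarith
        push_cast
        linarith
    have h7 : ∑ l ∈ NTot.PZ z, Real.log l / (l : ℝ) ≤ Real.log w + C2 := by
      have h8 := hM2 z hz2
      have hz2r : (2 : ℝ) ≤ z := by exact_mod_cast hz2
      have := Real.log_le_log (by linarith) hzw
      linarith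
    have h8 := sum_sq_le z
    have h9 : (Real.exp A - 1) / Real.log w * ∑ l ∈ NTot.PZ z, Real.log l / (l : ℝ) ≤
        (Real.exp A - 1) * (1 + C2 / Real.log 2) := by
      have e0 : 0 ≤ (Real.exp A - 1) / Real.log w := div_nonneg (by linarith) hlw.le
      calc (Real.exp A - 1) / Real.log w * ∑ l ∈ NTot.PZ z, Real.log l / (l : ℝ)
          ≤ (Real.exp A - 1) / Real.log w * (Real.log w + C2) :=
            mul_le_mul_of_nonneg_left h7 e0
        _ = (Real.exp A - 1) * (1 + C2 / Real.log w) := by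
            field_simp
        _ ≤ _ := by
            apply mul_le_mul_of_nonneg_left _ (by linarith)
            have : C2 / Real.log w ≤ C2 / Real.log 2 :=
              div_le_div_of_nonneg_left (by linarith) hl2 hl2w
            linarith
    have h10 : 8 * Real.exp A * ∑ l ∈ NTot.PZ z, 1 / ((l : ℝ) ^ 2) ≤ 16 * Real.exp A := by
      nlinarith
    linarith
  have hYs : Y ^ (-s) = Real.exp (-(A * Real.log Y / Real.log w)) := by
    rw [Real.rpow_def_of_pos hY]
    congr 1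
    rw [hs]
    ring
  calc ∑ a ∈ F, gg a ^ 2 / (a : ℝ) ≤ ∑ a ∈ F, Y ^ (-s) * ∏ l ∈ a.primeFactors, h l :=
        sum_le_sum h1
    _ = Y ^ (-s) * ∑ a ∈ F, ∏ l ∈ a.primeFactors, h l := by rw [mul_sum]
    _ ≤ Y ^ (-s) * Real.exp (Real.log (Real.log w) +
      (C1 + (Real.exp A - 1) * (1 + C2 / Real.log 2) + 16 * Real.exp A)) := by
        apply mul_le_mul_of_nonneg_left _ (Real.rpow_nonneg hY.le _)
        exact (h2.trans h3).trans (Real.exp_le_exp.2 h4)
    _ = _ := by
        rw [Real.exp_add, Real.exp_log hlw, hYs]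
        ring

end Pool.Agent.PPS
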