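import Pool.Agent.PPS.Ggl
import Pool.Agent.NTot.SL

/-!
# The upper bound sieve for `y3` (difficulty 5)

Section (D) of the notes.
-/

set_option autoImplicit false

namespace Pool.Agent.PPS

open Finset

private theorem fac_one {l : ℕ} (hl : l.Prime) : (1 : ℝ) ≤ (1 - 1 / (l : ℝ))⁻¹ ∧
    0 < 1 - 1 / (l : ℝ) := by
  have h2 : (2 : ℝ) ≤ l := by exact_mod_cast hl.two_le
  have h3 : 1 / (l : ℝ) ≤ 1 / 2 := one_div_le_one_div_of_le (by norm_num) h2
  have h4 : 0 < 1 / (l : ℝ) := by positivity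
  have h5 : 0 < 1 - 1 / (l : ℝ) := by linarith
  refine ⟨?_, h5⟩
  rw [one_le_inv₀ h5]
  linarith

private theorem prod_dvd_le (z N : ℕ) (hN : N ≠ 0) :
    ∏ l ∈ (NTot.PZ z).filter (fun l => l ∣ N), (1 - 1 / (l : ℝ))⁻¹ ≤ gg N := by
  unfold gg
  have hsub : (NTot.PZ z).filter (fun l => l ∣ N) ⊆ N.primeFactors := by
    intro l hl
    rw [mem_filter] at hl
    exact Nat.mem_primeFactors.2 ⟨(NTot.mem_PZ.1 hl.1).1, hl.2, hN⟩
  rw [← Finset.prod_sdiff hsub]
  have h1 : (1 : ℝ) ≤ ∏ l ∈ N.primeFactors \ (NTot.PZ z).filter (fun l => l ∣ N),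
      (1 - 1 / (l : ℝ))⁻¹ := by
    have : ∀ S : Finset ℕ, (∀ l ∈ S, l.Prime) → (1 : ℝ) ≤ ∏ l ∈ S, (1 - 1 / (l : ℝ))⁻¹ := by
      intro S
      induction S using Finset.induction_on with
      | empty => intro _; simp
      | insert q S hq ih =>
        intro h
        rw [prod_insert hq]
        have e1 := (fac_one (h q (mem_insert_self q S))).1
        have e2 := ih (fun l hl => h l (mem_insert_of_mem hl))
        nlinarith
    apply this
    intro l hl
    exact Nat.prime_of_mem_primeFactors (mem_sdiff.1 hl).1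
  have h0 : (0 : ℝ) ≤ ∏ l ∈ (NTot.PZ z).filter (fun l => l ∣ N), (1 - 1 / (l : ℝ))⁻¹ := by
    apply prod_nonneg
    intro l hl
    rw [mem_filter] at hl
    have := (fac_one (NTot.mem_PZ.1 hl.1).1).1
    linarith
  nlinarith

private theorem split_prod (z N : ℕ) (Ω : ℕ → Finset ℕ)
    (hΩ0 : ∀ l ∈ NTot.PZ z, (Ω l).card ≤ 1)
    (hΩ1 : ∀ l ∈ NTot.PZ z, ¬ l ∣ N → (Ω l).card = 1) (hN : N ≠ 0) :
    ∏ l ∈ NTot.PZ z, (1 - ((Ω l).card : ℝ) / l) ≤
      (∏ l ∈ NTot.PZ z, (1 - (1 : ℝ) / l)) * gg N := by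
  have hcard : ∀ l ∈ NTot.PZ z, (1 - ((Ω l).card : ℝ) / l) ≤ (1 - (1 : ℝ) / l) *
      (if l ∣ N then (1 - 1 / (l : ℝ))⁻¹ else 1) := by
    intro l hl
    have hlp := (NTot.mem_PZ.1 hl).1
    have hf := fac_one hlp
    split_ifs with h
    · rw [mul_inv_cancel₀ hf.2.ne']
      have : 0 ≤ ((Ω l).card : ℝ) / l := by positivity
      linarith
    · rw [hΩ1 l hl h]
      simp
  have hneg : ∀ l ∈ NTot.PZ z, 0 ≤ (1 - ((Ω l).card : ℝ) / l) := by
    intro l hl
    have hlp := (NTot.mem_PZ.1 hl).1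
    have hf := (fac_one hlp).2
    have h1 : ((Ω l).card : ℝ) ≤ 1 := by exact_mod_cast hΩ0 l hl
    have h2 : ((Ω l).card : ℝ) / l ≤ 1 / l :=
      div_le_div_of_nonneg_right h1 (by positivity)
    linarith
  calc ∏ l ∈ NTot.PZ z, (1 - ((Ω l).card : ℝ) / l)
      ≤ ∏ l ∈ NTot.PZ z, ((1 - (1 : ℝ) / l) *
        (if l ∣ N then (1 - 1 / (l : ℝ))⁻¹ else 1)) := prod_le_prod hneg hcard
    _ = (∏ l ∈ NTot.PZ z, (1 - (1 : ℝ) / l)) *
        ∏ l ∈ (NTot.PZ z).filter (fun l => l ∣ N), (1 - 1 / (l : ℝ))⁻¹ := by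
        rw [prod_mul_distrib, prod_filter]
    _ ≤ _ := by
        apply mul_le_mul_of_nonneg_left (prod_dvd_le z N hN)
        apply prod_nonneg
        intro l hl
        exact (fac_one (NTot.mem_PZ.1 hl).1).2.le

/-- existence of the forbidden class -/
private theorem cls {l : ℕ} (hl : l.Prime) {k c : ℤ} (hk : ¬ (l : ℤ) ∣ k) :
    ∃ n : ℕ, n < l ∧ (l : ℤ) ∣ k * n + c := by
  have : Fact l.Prime := ⟨hl⟩
  have hk0 : (k : ZMod l) ≠ 0 := by
    intro h
    exact hk ((ZMod.intCast_zmod_eq_zero_iff_dvd k l).1 h)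
  refine ⟨(-(c : ZMod l) / (k : ZMod l)).val, ZMod.val_lt _, ?_⟩
  rw [← ZMod.intCast_zmod_eq_zero_iff_dvd]
  push_cast
  rw [ZMod.natCast_zmod_val]
  field_simp
  ring

private theorem dvd_of_mod {l : ℕ} {k c : ℤ} (n : ℕ)
    (h : (l : ℤ) ∣ k * ((n % l : ℕ) : ℤ) + c) : (l : ℤ) ∣ k * n + c := by
  have h1 : (l : ℤ) ∣ (n : ℤ) - ((n % l : ℕ) : ℤ) := by
    rw [Int.natCast_mod]
    exact Int.dvd_self_sub_emod
  have h2 : k * n + c = (k * ((n % l : ℕ) : ℤ) + c) + k * ((n : ℤ) - ((n % l : ℕ) : ℤ)) := by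
    ring
  rw [h2]
  exact dvd_add h (Dvd.dvd.mul_left h1 k)

/-- all elements are in one class modulo `a m` -/
private theorem one_class {a m : ℕ} {p y1 y2 y y' r : ℤ} (ham : Nat.Coprime a m)
    (hap : IsCoprime (a : ℤ) p) (h1 : (m : ℤ) ∣ y - r) (h1' : (m : ℤ) ∣ y' - r)
    (h2 : (a : ℤ) ∣ del p y1 y2 y) (h2' : (a : ℤ) ∣ del p y1 y2 y') :
    ((a * m : ℕ) : ℤ) ∣ y - y' := by
  have hcop : IsCoprime (a : ℤ) (y1 * y2) := by
    have h3 : IsCoprime (a : ℤ) (p ^ 3) := hap.pow_right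
    unfold del at h2
    obtain ⟨k, hk⟩ := h2
    obtain ⟨u, v, huv⟩ := h3
    refine ⟨u - v * k, v * y, ?_⟩
    have : p ^ 3 = y1 * y2 * y - a * k := by linarith
    rw [this] at huv
    linear_combination huv
  have hm : (m : ℤ) ∣ y - y' := by
    have := dvd_sub h1 h1'
    have e : y - r - (y' - r) = y - y' := by ring
    rwa [e] at this
  have ha : (a : ℤ) ∣ y - y' := by
    have h4 := dvd_sub h2 h2'
    have e : del p y1 y2 y - del p y1 y2 y' = (y1 * y2) * (y - y') := by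
      unfold del; ring
    rw [e] at h4
    exact hcop.dvd_of_dvd_mul_left h4
  push_cast
  exact IsCoprime.mul_dvd (Nat.isCoprime_iff_coprime.2 ham) ha hm

/-- from the set to an interval of natural numbers -/
private theorem to_nat {M L : ℕ} (hM : 1 ≤ M) {j s : ℤ} {F : Finset ℤ}
    (hF : ∀ y ∈ F, y ∈ Ico j (j + L) ∧ s ≤ y ∧ (M : ℤ) ∣ y - s) (hs : s ∈ F)
    (P : ℕ → Prop) [DecidablePred P]
    (hP : ∀ n : ℕ, 1 ≤ n → s + M * ((n : ℤ) - 1) ∈ F → P n) :
    F.card ≤ ((Ioc 0 (0 + (L / M + 1))).filter P).card := by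
  have hMz : (0 : ℤ) < M := by exact_mod_cast hM
  apply Finset.card_le_card_of_injOn (fun y => ((y - s) / M).toNat + 1)
  · intro y hy
    have hy' : y ∈ F := hy
    obtain ⟨h1, h2, h3⟩ := hF y hy'
    obtain ⟨k, hk⟩ := h3
    have hsj := (mem_Ico.1 (hF s hs).1).1
    have hyj := (mem_Ico.1 h1).2
    have hk0 : 0 ≤ k := by
      by_contra hcon
      push Not at hcon
      nlinarith
    have hdiv : (y - s) / M = k := by
      rw [hk]; exact Int.mul_ediv_cancel_left k hMz.ne'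
    have hkL : k ≤ (L / M : ℕ) := by
      rw [Int.natCast_div]
      apply Int.le_ediv_of_mul_le hMz
      nlinarith
    obtain ⟨n, rfl⟩ := Int.eq_ofNat_of_zero_le hk0
    simp only [coe_filter, Set.mem_ofPred_eq]
    rw [hdiv]
    have hn : n ≤ L / M := by exact_mod_cast hkL
    refine ⟨?_, ?_⟩
    · rw [mem_Ioc]
      simp only [Int.toNat_natCast]
      omega
    · apply hP
      · omega
      · simp only [Int.toNat_natCast]
        push_cast
        have : s + (M : ℤ) * ((n : ℤ) + 1 - 1) = y := by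
          rw [add_sub_cancel_right]; linarith
        rw [this]
        exact hy'
  · intro y hy y' hy' h
    have hy1 : y ∈ F := hy
    have hy2 : y' ∈ F := hy'
    obtain ⟨h1, h2, h3⟩ := hF y hy1
    obtain ⟨h1', h2', h3'⟩ := hF y' hy2
    obtain ⟨k, hk⟩ := h3
    obtain ⟨k', hk'⟩ := h3'
    simp only at h
    rw [hk, hk', Int.mul_ediv_cancel_left k hMz.ne', Int.mul_ediv_cancel_left k' hMz.ne'] at h
    have hk0 : 0 ≤ k := by
      by_contra hcon
      push Not at hcon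
      nlinarith
    have hk0' : 0 ≤ k' := by
      by_contra hcon
      push Not at hcon
      nlinarith
    have : k = k' := by omega
    subst this
    linarith

private theorem log_floor {w : ℝ} (hw : 2 ≤ w) :
    Real.log w / 2 ≤ Real.log (⌊w⌋₊ : ℝ) := by
  have h2 : 2 ≤ ⌊w⌋₊ := Nat.le_floor (by exact_mod_cast hw)
  have h2r : (2 : ℝ) ≤ ⌊w⌋₊ := by exact_mod_cast h2
  have hlt := Nat.lt_floor_add_one w
  have hsq : w ≤ (⌊w⌋₊ : ℝ) ^ 2 := by nlinarith
  have h3 := Real.log_le_log (by linarith) hsq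
  rw [Real.log_pow] at h3
  push_cast at h3
  linarith

theorem siv : ∃ C0 C : ℝ, 1 ≤ C0 ∧ 0 < C ∧ ∀ (a m L : ℕ) (p y1 y2 r j : ℤ) (w : ℝ), 1 ≤ a →
    1 ≤ m → Nat.Coprime a m → p ≠ 0 → y1 ≠ 0 → y2 ≠ 0 → IsCoprime (a : ℤ) p → 1 < w →
    C0 * Real.log w ≤ Real.log ((L : ℝ) / (a * m)) → 1 ≤ (L : ℝ) / (a * m) → ∀ F : Finset ℤ,
    (∀ y3 ∈ F, y3 ∈ Ico j (j + L) ∧ (m : ℤ) ∣ y3 - r ∧ Cnd a m w p y1 y2 y3) →
    (F.card : ℝ) ≤ C * ((L : ℝ) / (a * m)) / Real.log w *
      (gg a * gg m * gg p.natAbs * gg y1.natAbs * gg y2.natAbs) := by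
  obtain ⟨C0, hC0, hSL⟩ := NTot.SL
  obtain ⟨C1, hC1, hM⟩ := NTot.mertens_prod
  refine ⟨C0, 16 * C1, hC0, by positivity, ?_⟩
  intro a m L p y1 y2 r j w ha hm ham hp hy1 hy2 hap hw hlog hL1 F hF
  have g1 := gg_one_le a
  have g2 := gg_one_le m
  have g3 := gg_one_le p.natAbs
  have g4 := gg_one_le y1.natAbs
  have g5 := gg_one_le y2.natAbs
  have G1 : 1 ≤ gg a * gg m := one_le_mul_of_one_le_of_one_le g1 g2
  have G2 : 1 ≤ gg a * gg m * gg p.natAbs := one_le_mul_of_one_le_of_one_le G1 g3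
  have G3 : 1 ≤ gg a * gg m * gg p.natAbs * gg y1.natAbs := one_le_mul_of_one_le_of_one_le G2 g4
  have G4 : 1 ≤ gg a * gg m * gg p.natAbs * gg y1.natAbs * gg y2.natAbs :=
    one_le_mul_of_one_le_of_one_le G3 g5
  set G : ℝ := gg a * gg m * gg p.natAbs * gg y1.natAbs * gg y2.natAbs with hG
  have hlw : 0 < Real.log w := Real.log_pos hw
  have hM1 : 1 ≤ a * m := Nat.mul_pos ha hm
  have hMr : (1 : ℝ) ≤ (a : ℝ) * m := by exact_mod_cast hM1
  rcases F.eq_empty_or_nonempty with rfl | hne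
  · simp only [card_empty, Nat.cast_zero]
    positivity
  obtain ⟨s, hs, hmin⟩ := F.exists_min_image id hne
  simp only [id] at hmin
  have hF' : ∀ y ∈ F, y ∈ Ico j (j + L) ∧ s ≤ y ∧ ((a * m : ℕ) : ℤ) ∣ y - s := by
    intro y hy
    obtain ⟨f1, f2, f3⟩ := hF y hy
    obtain ⟨_, f2', f3'⟩ := hF s hs
    exact ⟨f1, hmin y hy, one_class ham hap f2 f2' f3.1 f3'.1⟩
  set X : ℕ := L / (a * m) + 1 with hX
  have hXle : (X : ℝ) ≤ 2 * ((L : ℝ) / (a * m)) := by
    have h1 : ((L / (a * m) : ℕ) : ℝ) ≤ (L : ℝ) / ((a * m : ℕ) : ℝ) := Nat.cast_div_le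
    push_cast at h1
    rw [hX]
    push_cast
    linarith
  have hXge : (L : ℝ) / (a * m) ≤ X := by
    have h1 := Nat.lt_div_mul_add (a := L) (b := a * m) (by omega)
    rw [div_le_iff₀ (by linarith)]
    have h2 : L ≤ X * (a * m) := by
      rw [hX]
      have : (L / (a * m) + 1) * (a * m) = L / (a * m) * (a * m) + a * m := by ring
      omega
    exact_mod_cast h2
  by_cases hw2 : w < 2
  · have hc := to_nat hM1 hF' hs (fun _ => True) (fun _ _ _ => trivial)
    have hc2 : F.card ≤ X := by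
      refine hc.trans ?_
      rw [filter_true_of_mem (fun _ _ => trivial), Nat.card_Ioc, Nat.sub_zero, Nat.zero_add]
    have hc3 : (F.card : ℝ) ≤ X := by exact_mod_cast hc2
    have hlog2 : Real.log w ≤ 1 := by
      have h1 := Real.log_le_log (by linarith) hw2.le
      have := Real.log_two_lt_d9
      linarith
    calc (F.card : ℝ) ≤ 2 * ((L : ℝ) / (a * m)) := hc3.trans hXle
      _ ≤ 16 * C1 * ((L : ℝ) / (a * m)) := by nlinarith
      _ ≤ 16 * C1 * ((L : ℝ) / (a * m)) / Real.log w := by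
          rw [le_div_iff₀ hlw]
          have : 0 ≤ 16 * C1 * ((L : ℝ) / (a * m)) := by positivity
          nlinarith
      _ ≤ _ := le_mul_of_one_le_right (by positivity) G4
  · push Not at hw2
    set z : ℕ := ⌊w⌋₊ with hz
    have hz2 : 2 ≤ z := Nat.le_floor (by exact_mod_cast hw2)
    have hzw : (z : ℝ) ≤ w := Nat.floor_le (by linarith)
    have hzr : (2 : ℝ) ≤ z := by exact_mod_cast hz2
    have hlz : Real.log w / 2 ≤ Real.log z := log_floor hw2
    have hlzw : Real.log z ≤ Real.log w := Real.log_le_log (by linarith) hzw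
    have hlz0 : 0 < Real.log z := by linarith
    set N : ℕ := a * m * p.natAbs * y1.natAbs * y2.natAbs with hN
    have hN0 : N ≠ 0 := by
      rw [hN]
      have e1 : p.natAbs ≠ 0 := Int.natAbs_ne_zero.2 hp
      have e2 : y1.natAbs ≠ 0 := Int.natAbs_ne_zero.2 hy1
      have e3 : y2.natAbs ≠ 0 := Int.natAbs_ne_zero.2 hy2
      have e4 : a ≠ 0 := by omega
      have e5 : m ≠ 0 := by omega
      positivity
    set k : ℤ := y1 * y2 * ((a * m : ℕ) : ℤ) with hk
    set c : ℤ := y1 * y2 * (s - ((a * m : ℕ) : ℤ)) - p ^ 3 with hc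
    have hdel : ∀ n : ℤ, del p y1 y2 (s + ((a * m : ℕ) : ℤ) * (n - 1)) = k * n + c := by
      intro n
      unfold del
      rw [hk, hc]
      ring
    have hkl : ∀ l : ℕ, l.Prime → ¬ l ∣ N → ¬ (l : ℤ) ∣ k := by
      intro l hl hlN hlk
      apply hlN
      have h1 : l ∣ k.natAbs := Int.natCast_dvd.1 hlk
      rw [hk, Int.natAbs_mul, Int.natAbs_mul, Int.natAbs_natCast] at h1
      rw [hN]
      have e : a * m * p.natAbs * y1.natAbs * y2.natAbs =
          (y1.natAbs * y2.natAbs * (a * m)) * p.natAbs := by ring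
      rw [e]
      exact Dvd.dvd.mul_right h1 _
    have hex : ∀ l : ℕ, ∃ n : ℕ, l.Prime → ¬ l ∣ N → n < l ∧ (l : ℤ) ∣ k * n + c := by
      intro l
      by_cases h : l.Prime ∧ ¬ l ∣ N
      · obtain ⟨n, h1, h2⟩ := cls h.1 (c := c) (hkl l h.1 h.2)
        exact ⟨n, fun _ _ => ⟨h1, h2⟩⟩
      · exact ⟨0, fun h1 h2 => absurd ⟨h1, h2⟩ h⟩
    choose ω hω using hex
    set Ω : ℕ → Finset ℕ := fun l => if l ∣ N then ∅ else {ω l} with hΩ
    have hΩc : ∀ l, (Ω l).card ≤ 1 := by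
      intro l
      simp only [hΩ]
      split_ifs <;> simp
    have hS := hSL 1 X 0 z Ω le_rfl hz2 (by rw [hX]; exact Nat.le_add_left 1 _) (by
      have h1 : Real.log ((L : ℝ) / (a * m)) ≤ Real.log X :=
        Real.log_le_log (by linarith) hXge
      have h2 : C0 * ((1 : ℕ) : ℝ) * Real.log z ≤ C0 * Real.log w := by
        push_cast
        rw [mul_one]
        exact mul_le_mul_of_nonneg_left hlzw (by linarith)
      linarith) (by
      intro l hl
      refine ⟨?_, hΩc l⟩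
      simp only [hΩ]
      split_ifs with h
      · simp
      · intro x hx
        rw [mem_singleton] at hx
        subst hx
        exact mem_range.2 (hω l (NTot.mem_PZ.1 hl).1 h).1)
    have hc1 := to_nat hM1 hF' hs (fun n => ∀ l ∈ NTot.PZ z, n % l ∉ Ω l) (by
      intro n hn hnF l hl hmem
      obtain ⟨hlp, hlz'⟩ := NTot.mem_PZ.1 hl
      simp only [hΩ] at hmem
      split_ifs at hmem with h
      · simp at hmem
      · rw [mem_singleton] at hmem
        have h1 := (hω l hlp h).2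
        rw [← hmem] at h1
        have h2 := dvd_of_mod n h1
        rw [← hdel] at h2
        obtain ⟨_, _, _, f4⟩ := hF _ hnF
        have h3 : ¬ l ∣ m := fun e => h (by
          rw [hN]
          exact Dvd.dvd.mul_right (Dvd.dvd.mul_right (Dvd.dvd.mul_right (Dvd.dvd.mul_left e a) _) _) _)
        have h4 : ¬ l ∣ a := fun e => h (by
          rw [hN]
          exact Dvd.dvd.mul_right (Dvd.dvd.mul_right (Dvd.dvd.mul_right (Dvd.dvd.mul_right e m) _) _) _)
        have h5 : ¬ (l : ℤ) ∣ p := fun e => h (by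
          rw [hN]
          exact Dvd.dvd.mul_right (Dvd.dvd.mul_right
            (Dvd.dvd.mul_left (Int.natCast_dvd.1 e) (a * m)) _) _)
        have h6 := f4 l hlp h2 h3 h4 h5
        have h7 : (l : ℝ) ≤ z := by exact_mod_cast hlz'
        linarith)
    have hP := split_prod z N Ω (fun l _ => hΩc l) (fun l _ h => by
      simp only [hΩ, h, if_false, card_singleton]) hN0
    have hNG : gg N ≤ G := by
      rw [hN, hG]
      refine (gg_mul_le _ _).trans ?_
      refine mul_le_mul_of_nonneg_right ?_ (by linarith)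
      refine (gg_mul_le _ _).trans ?_
      refine mul_le_mul_of_nonneg_right ?_ (by linarith)
      refine (gg_mul_le _ _).trans ?_
      refine mul_le_mul_of_nonneg_right ?_ (by linarith)
      exact gg_mul_le _ _
    have hMz := hM z hz2
    have hMz2 : ∏ l ∈ NTot.PZ z, (1 - (1 : ℝ) / l) ≤ 2 * C1 / Real.log w := by
      refine hMz.trans ?_
      rw [div_le_div_iff₀ hlz0 hlw]
      nlinarith
    have hgN := gg_one_le N
    have hcR : (F.card : ℝ) ≤ (((Ioc 0 (0 + X)).filter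
        (fun n => ∀ l ∈ NTot.PZ z, n % l ∉ Ω l)).card : ℝ) := by
      exact_mod_cast hc1
    have hS' : (((Ioc 0 (0 + X)).filter
        (fun n => ∀ l ∈ NTot.PZ z, n % l ∉ Ω l)).card : ℝ) ≤
        4 * X * ∏ l ∈ NTot.PZ z, (1 - ((Ω l).card : ℝ) / l) := by
      convert hS
    calc (F.card : ℝ) ≤ 4 * X * ∏ l ∈ NTot.PZ z, (1 - ((Ω l).card : ℝ) / l) := hcR.trans hS'
      _ ≤ 4 * X * (2 * C1 / Real.log w * G) := by
          apply mul_le_mul_of_nonneg_left _ (by positivity)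
          refine hP.trans ?_
          exact mul_le_mul hMz2 hNG (by linarith) (by positivity)
      _ ≤ 4 * (2 * ((L : ℝ) / (a * m))) * (2 * C1 / Real.log w * G) := by
          apply mul_le_mul_of_nonneg_right _ (by positivity)
          linarith
      _ = _ := by ring

end Pool.Agent.PPS
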