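import Pool.Agent.PPS.Cov
import Pool.Agent.PPS.Siv
import Pool.Agent.PPS.Avt
import Pool.Agent.PPS.Rnk

/-!
# The core lemma (difficulty 5)

Section (H) of the notes: `c = c2 = 1 / (C0 + 8)`, `z = T ^ c2`,
`f ≤ ∑ i ≤ 2 log z, 3 ^ (16 / c2 * 2 ^ i) ∑ a ∈ AA z i, [(a, m) = 1, (a, p) = 1, Cnd] rr a`.
-/

set_option autoImplicit false

namespace Pool.Agent.PPS

open Finset

private theorem log_ww (z : ℝ) (i : ℕ) : Real.log (ww z i) = Real.log z / 2 ^ (i + 1) := by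
  unfold ww
  rw [Real.log_exp]

private theorem mem_AA {z : ℝ} {i a : ℕ} (hz : 1 ≤ z) (h : a ∈ AA z i) :
    1 ≤ a ∧ (a : ℝ) ≤ z ∧ Squarefree a := by
  have hz0 : 0 ≤ z := by linarith
  cases i with
  | zero =>
    unfold AA at h
    rw [mem_filter, mem_Icc] at h
    exact ⟨h.1.1, (Nat.le_floor_iff hz0).1 h.1.2, h.2⟩
  | succ k =>
    unfold AA at h
    rw [mem_filter, mem_Icc] at h
    exact ⟨h.1.1, (Nat.le_floor_iff hz0).1 h.1.2, h.2.1⟩

/-- the sum over the prefixes of one level -/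
private theorem level (κ : ℝ) (hκ : 0 ≤ κ) : ∃ D : ℝ, 0 < D ∧ ∀ z : ℝ, 2 ≤ z → ∀ i : ℕ,
    (3 : ℝ) ^ (κ * 2 ^ i) * (1 / Real.log (ww z i)) * ∑ a ∈ AA z i, gg a ^ 2 / (a : ℝ) ≤
      D * (1 / 2) ^ i := by
  obtain ⟨C3, hC3, hr0⟩ := rnk 0 le_rfl
  obtain ⟨C4, hC4, hrA⟩ := rnk (2 + 2 * κ * Real.log 3)
    (by have : 0 < Real.log 3 := Real.log_pos (by norm_num); positivity)
  refine ⟨2 * 3 ^ κ * C3 + 2 * C4, by positivity, ?_⟩
  intro z hz i
  have hlz : 0 < Real.log z := Real.log_pos (by linarith)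
  cases i with
  | zero =>
    have h1 := hr0 z (1 / 2) (AA z 0) hz (by norm_num) (by
      intro a ha
      obtain ⟨h1, h2, h3⟩ := mem_AA (by linarith) ha
      refine ⟨h3, ?_, ?_⟩
      · have : (1 : ℝ) ≤ a := by exact_mod_cast h1
        linarith
      · intro l hl
        have hle : l ≤ a := Nat.le_of_mem_primeFactors hl
        have : (l : ℝ) ≤ a := by exact_mod_cast hle
        linarith)
    rw [zero_mul, zero_div, neg_zero, Real.exp_zero, mul_one] at h1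
    rw [log_ww]
    simp only [pow_zero, mul_one, zero_add, pow_one]
    have h3k : (0 : ℝ) < 3 ^ κ := by positivity
    calc (3 : ℝ) ^ κ * (1 / (Real.log z / 2)) * ∑ a ∈ AA z 0, gg a ^ 2 / (a : ℝ)
        ≤ 3 ^ κ * (1 / (Real.log z / 2)) * (C3 * Real.log z) :=
          mul_le_mul_of_nonneg_left h1 (by positivity)
      _ = 2 * 3 ^ κ * C3 := by field_simp
      _ ≤ _ := by linarith
  | succ k =>
    have hw0 : 0 < Real.log (ww z (k + 1)) := by rw [log_ww]; positivity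
    by_cases hk : 2 ≤ ww z k
    · have hsq : 0 < Real.sqrt z := Real.sqrt_pos.2 (by linarith)
      have h1 := hrA (ww z k) (Real.sqrt z) (AA z (k + 1)) hk hsq (by
        intro a ha
        unfold AA at ha
        rw [mem_filter] at ha
        exact ha.2)
      have hlk : 0 < Real.log z / 2 ^ (k + 1) := by positivity
      have hexp : -((2 + 2 * κ * Real.log 3) * Real.log (Real.sqrt z) / Real.log (ww z k)) =
          -(2 ^ (k + 1)) - Real.log 3 * (κ * 2 ^ (k + 1)) := by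
        rw [log_ww, Real.log_sqrt (by linarith)]
        field_simp
        ring
      rw [hexp, log_ww] at h1
      have h3 : (3 : ℝ) ^ (κ * 2 ^ (k + 1)) = Real.exp (Real.log 3 * (κ * 2 ^ (k + 1))) := by
        rw [Real.rpow_def_of_pos (by norm_num)]
      have h4 : Real.exp (-(2 ^ (k + 1)) - Real.log 3 * (κ * 2 ^ (k + 1))) *
          (3 : ℝ) ^ (κ * 2 ^ (k + 1)) = Real.exp (-(2 ^ (k + 1))) := by
        rw [h3, ← Real.exp_add]
        congr 1
        ring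
      have h5 : Real.exp (-(2 ^ (k + 1) : ℝ)) ≤ (1 / 2) ^ (k + 1) := by
        rw [Real.exp_neg, one_div, inv_pow]
        apply inv_anti₀ (by positivity)
        have := Real.add_one_le_exp ((2 : ℝ) ^ (k + 1))
        linarith
      have hpos : (0 : ℝ) < 3 ^ (κ * 2 ^ (k + 1)) := by positivity
      calc (3 : ℝ) ^ (κ * 2 ^ (k + 1)) * (1 / Real.log (ww z (k + 1))) *
            ∑ a ∈ AA z (k + 1), gg a ^ 2 / (a : ℝ)
          ≤ 3 ^ (κ * 2 ^ (k + 1)) * (1 / Real.log (ww z (k + 1))) *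
            (C4 * Real.exp (-(2 ^ (k + 1)) - Real.log 3 * (κ * 2 ^ (k + 1))) *
              (Real.log z / 2 ^ (k + 1))) := mul_le_mul_of_nonneg_left h1 (by positivity)
        _ = 2 * C4 * (Real.exp (-(2 ^ (k + 1)) - Real.log 3 * (κ * 2 ^ (k + 1))) *
            3 ^ (κ * 2 ^ (k + 1))) := by
            rw [log_ww]
            field_simp
            ring
        _ = 2 * C4 * Real.exp (-(2 ^ (k + 1))) := by rw [h4]
        _ ≤ 2 * C4 * (1 / 2) ^ (k + 1) := mul_le_mul_of_nonneg_left h5 (by positivity)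
        _ ≤ _ := by
            apply mul_le_mul_of_nonneg_right _ (by positivity)
            have : (0 : ℝ) < 2 * 3 ^ κ * C3 := by positivity
            linarith
    · have hemp : AA z (k + 1) = ∅ := by
        rw [Finset.eq_empty_iff_forall_notMem]
        intro a ha
        unfold AA at ha
        rw [mem_filter] at ha
        obtain ⟨h1, h2, h3, h4⟩ := ha
        have hs1 : 1 ≤ Real.sqrt z := by
          rw [Real.one_le_sqrt]; linarith
        have ha1 : a ≠ 1 := by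
          rintro rfl
          simp only [Nat.cast_one] at h3
          linarith
        obtain ⟨q, hq, hqa⟩ := Nat.exists_prime_and_dvd ha1
        have ha0 : a ≠ 0 := by
          have := (mem_Icc.1 h1).1
          omega
        have h5 := h4 q (Nat.mem_primeFactors.2 ⟨hq, hqa, ha0⟩)
        have h6 : (2 : ℝ) ≤ q := by exact_mod_cast hq.two_le
        exact hk (h6.trans h5)
      rw [hemp, sum_empty, mul_zero]
      positivity

open Classical in
/-- the pointwise bound -/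
private theorem pt {T c2 : ℝ} (hT : 1 < T) (hc : 0 < c2) {m : ℕ} (hm : 1 ≤ m) (N : ℕ)
    (hN : 2 * Real.log (T ^ c2) < N) {p y1 y2 y3 : ℤ}
    (h0 : del p y1 y2 y3 ≠ 0) (h1 : ((|del p y1 y2 y3| : ℤ) : ℝ) ≤ T ^ 8) :
    (ff m p y1 y2 y3 : ℝ) ≤ ∑ i ∈ range N, ∑ a ∈ AA (T ^ c2) i,
      if Nat.Coprime a m ∧ IsCoprime (a : ℤ) p ∧ Cnd a m (ww (T ^ c2) i) p y1 y2 y3 then
        (3 : ℝ) ^ (16 / c2 * 2 ^ i) * rr a y1 y2 else 0 := by
  obtain ⟨i, hi, a, ha, h2, h3, h4, h5⟩ := cover hT hc hm h0 h1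
  have hnn : ∀ (i a : ℕ), (0 : ℝ) ≤ if Nat.Coprime a m ∧ IsCoprime (a : ℤ) p ∧
      Cnd a m (ww (T ^ c2) i) p y1 y2 y3 then
        (3 : ℝ) ^ (16 / c2 * 2 ^ i) * rr a y1 y2 else 0 := by
    intro i a
    split_ifs
    · positivity
    · exact le_rfl
  have hiN : i ∈ range N := by
    rw [mem_range]
    have : (i : ℝ) < N := lt_of_le_of_lt hi hN
    exact_mod_cast this
  have e1 := Finset.single_le_sum (f := fun i => ∑ a ∈ AA (T ^ c2) i,
      if Nat.Coprime a m ∧ IsCoprime (a : ℤ) p ∧ Cnd a m (ww (T ^ c2) i) p y1 y2 y3 then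
        (3 : ℝ) ^ (16 / c2 * 2 ^ i) * rr a y1 y2 else 0)
    (fun i _ => sum_nonneg (fun a _ => hnn i a)) hiN
  have e2 := Finset.single_le_sum (f := fun a =>
      if Nat.Coprime a m ∧ IsCoprime (a : ℤ) p ∧ Cnd a m (ww (T ^ c2) i) p y1 y2 y3 then
        (3 : ℝ) ^ (16 / c2 * 2 ^ i) * (rr a y1 y2 : ℝ) else 0)
    (fun a _ => hnn i a) ha
  refine le_trans ?_ e1
  refine le_trans ?_ e2
  rw [if_pos ⟨h2, h3, h4⟩]
  exact h5

open Classical in
/-- one prefix -/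
private theorem term {C0 C1 C2 : ℝ} (hC1 : 0 < C1) (hC2 : 0 < C2)
    (hsiv : ∀ (a m L : ℕ) (p y1 y2 r j : ℤ) (w : ℝ), 1 ≤ a →
    1 ≤ m → Nat.Coprime a m → p ≠ 0 → y1 ≠ 0 → y2 ≠ 0 → IsCoprime (a : ℤ) p → 1 < w →
    C0 * Real.log w ≤ Real.log ((L : ℝ) / (a * m)) → 1 ≤ (L : ℝ) / (a * m) → ∀ F : Finset ℤ,
    (∀ y3 ∈ F, y3 ∈ Ico j (j + L) ∧ (m : ℤ) ∣ y3 - r ∧ Cnd a m w p y1 y2 y3) →
    (F.card : ℝ) ≤ C1 * ((L : ℝ) / (a * m)) / Real.log w *
      (gg a * gg m * gg p.natAbs * gg y1.natAbs * gg y2.natAbs))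
    (havt : ∀ (A0 A1 A2 r0 r1 r2 : ℤ) (H0 H1 H2 a m : ℕ) (B : ℝ), 1 ≤ a →
    1 ≤ m → Nat.Coprime a m → 2 ≤ B →
    (∀ x ∈ Ico A0 (A0 + H0), ((|x| : ℤ) : ℝ) ≤ B) →
    (∀ x ∈ Ico A1 (A1 + H1), ((|x| : ℤ) : ℝ) ≤ B) →
    (∀ x ∈ Ico A2 (A2 + H2), ((|x| : ℤ) : ℝ) ≤ B) →
    a * m * Real.log B ≤ H0 → a * m * Real.log B ≤ H1 → a * m * Real.log B ≤ H2 →
    ∑ p ∈ II A0 H0 m r0, ∑ y1 ∈ II A1 H1 m r1, ∑ y2 ∈ II A2 H2 m r2,
      (rr a y1 y2 : ℝ) * (gg p.natAbs * gg y1.natAbs * gg y2.natAbs) ≤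
      C2 * gg m ^ 3 * gg a * (H0 * H1 * H2 / (m : ℝ) ^ 3))
    {T : ℝ} {m : ℕ} (hm : 1 ≤ m) (r0 r1 r2 r3 A0 A1 A2 : ℤ) (H0 H1 H2 L : ℕ)
    (j : ℤ → ℤ → ℤ → ℤ) {B : ℝ} (hB : 2 ≤ B)
    (hA0 : ∀ x ∈ Ico A0 (A0 + H0), ((|x| : ℤ) : ℝ) ≤ B)
    (hA1 : ∀ x ∈ Ico A1 (A1 + H1), ((|x| : ℤ) : ℝ) ≤ B)
    (hA2 : ∀ x ∈ Ico A2 (A2 + H2), ((|x| : ℤ) : ℝ) ≤ B)
    {a : ℕ} (ha : 1 ≤ a) {w K : ℝ} (hw : 1 < w) (hK : 0 ≤ K)
    (hlog : C0 * Real.log w ≤ Real.log ((L : ℝ) / (a * m))) (hL : 1 ≤ (L : ℝ) / (a * m))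
    (h0 : a * m * Real.log B ≤ H0) (h1 : a * m * Real.log B ≤ H1)
    (h2 : a * m * Real.log B ≤ H2) :
    ∑ p ∈ II A0 H0 m r0, ∑ y1 ∈ II A1 H1 m r1, ∑ y2 ∈ II A2 H2 m r2,
      ∑ y3 ∈ JJ T (j p y1 y2) L m r3 p y1 y2,
        (if Nat.Coprime a m ∧ IsCoprime (a : ℤ) p ∧ Cnd a m w p y1 y2 y3 then
          K * (rr a y1 y2 : ℝ) else 0) ≤
      K * (1 / Real.log w) * (gg a ^ 2 / (a : ℝ)) *
        (C1 * C2 * gg m ^ 4 * (H0 * H1 * H2 * L / (m : ℝ) ^ 4)) := by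
  have hlw : 0 < Real.log w := Real.log_pos hw
  have g1 := gg_one_le a
  have g2 := gg_one_le m
  have har : (0 : ℝ) < a := by exact_mod_cast ha
  have hmr : (0 : ℝ) < m := by exact_mod_cast hm
  by_cases hcop : Nat.Coprime a m
  · have key : ∀ p ∈ II A0 H0 m r0, ∀ y1 ∈ II A1 H1 m r1, ∀ y2 ∈ II A2 H2 m r2,
        ∑ y3 ∈ JJ T (j p y1 y2) L m r3 p y1 y2,
        (if Nat.Coprime a m ∧ IsCoprime (a : ℤ) p ∧ Cnd a m w p y1 y2 y3 then
          K * (rr a y1 y2 : ℝ) else 0) ≤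
        K * (C1 * ((L : ℝ) / (a * m)) / Real.log w) * gg a * gg m *
          ((rr a y1 y2 : ℝ) * (gg p.natAbs * gg y1.natAbs * gg y2.natAbs)) := by
      intro p hp y1 hy1 y2 hy2
      have hp0 : p ≠ 0 := (mem_filter.1 hp).2.2
      have hy10 : y1 ≠ 0 := (mem_filter.1 hy1).2.2
      have hy20 : y2 ≠ 0 := (mem_filter.1 hy2).2.2
      have g3 := gg_one_le p.natAbs
      have g4 := gg_one_le y1.natAbs
      have g5 := gg_one_le y2.natAbs
      by_cases hap : IsCoprime (a : ℤ) p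
      · rw [← sum_filter, sum_const, nsmul_eq_mul]
        have hs := hsiv a m L p y1 y2 r3 (j p y1 y2) w ha hm hcop hp0 hy10 hy20 hap hw hlog hL
          ((JJ T (j p y1 y2) L m r3 p y1 y2).filter (fun y3 =>
            Nat.Coprime a m ∧ IsCoprime (a : ℤ) p ∧ Cnd a m w p y1 y2 y3)) (by
          intro y3 hy3
          rw [mem_filter] at hy3
          obtain ⟨e1, e2, e3, e4⟩ := hy3
          unfold JJ at e1
          rw [mem_filter] at e1
          exact ⟨e1.1, e1.2.1, e4⟩)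
        have hKr : 0 ≤ K * (rr a y1 y2 : ℝ) := by positivity
        refine (mul_le_mul_of_nonneg_right hs hKr).trans (le_of_eq ?_)
        ring
      · rw [sum_eq_zero]
        · have : 0 ≤ (L : ℝ) / (a * m) := by linarith
          positivity
        · intro y3 _
          rw [if_neg]
          rintro ⟨_, e, _⟩
          exact hap e
    have hsum := havt A0 A1 A2 r0 r1 r2 H0 H1 H2 a m B ha hm hcop hB hA0 hA1 hA2 h0 h1 h2
    have hL0 : 0 ≤ (L : ℝ) / (a * m) := by linarith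
    have hconst : 0 ≤ K * (C1 * ((L : ℝ) / (a * m)) / Real.log w) * gg a * gg m := by positivity
    calc _ ≤ ∑ p ∈ II A0 H0 m r0, ∑ y1 ∈ II A1 H1 m r1, ∑ y2 ∈ II A2 H2 m r2,
          K * (C1 * ((L : ℝ) / (a * m)) / Real.log w) * gg a * gg m *
          ((rr a y1 y2 : ℝ) * (gg p.natAbs * gg y1.natAbs * gg y2.natAbs)) :=
          sum_le_sum (fun p hp => sum_le_sum (fun y1 hy1 => sum_le_sum (fun y2 hy2 =>
            key p hp y1 hy1 y2 hy2)))
      _ = K * (C1 * ((L : ℝ) / (a * m)) / Real.log w) * gg a * gg m *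
          ∑ p ∈ II A0 H0 m r0, ∑ y1 ∈ II A1 H1 m r1, ∑ y2 ∈ II A2 H2 m r2,
          ((rr a y1 y2 : ℝ) * (gg p.natAbs * gg y1.natAbs * gg y2.natAbs)) := by
          simp only [mul_sum]
      _ ≤ K * (C1 * ((L : ℝ) / (a * m)) / Real.log w) * gg a * gg m *
          (C2 * gg m ^ 3 * gg a * (H0 * H1 * H2 / (m : ℝ) ^ 3)) :=
          mul_le_mul_of_nonneg_left hsum hconst
      _ = _ := by
          field_simp
  · have hz : ∀ p ∈ II A0 H0 m r0, ∑ y1 ∈ II A1 H1 m r1, ∑ y2 ∈ II A2 H2 m r2,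
        ∑ y3 ∈ JJ T (j p y1 y2) L m r3 p y1 y2,
        (if Nat.Coprime a m ∧ IsCoprime (a : ℤ) p ∧ Cnd a m w p y1 y2 y3 then
          K * (rr a y1 y2 : ℝ) else 0) = 0 := by
      intro p _
      refine sum_eq_zero (fun y1 _ => sum_eq_zero (fun y2 _ => sum_eq_zero (fun y3 _ => ?_)))
      rw [if_neg]
      rintro ⟨e, _⟩
      exact hcop e
    rw [sum_eq_zero hz]
    positivity

private theorem threshold (T c : ℝ) (hT : (16 : ℝ) ^ 8 ≤ T) (hc : c ≤ 1 / 9) :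
    T ^ c * T ^ c * Real.log (T ^ 2) ≤ Real.sqrt T := by
  have hT0 : 0 < T := lt_of_lt_of_le (by positivity) hT
  have hT1 : 1 ≤ T := le_trans (by norm_num) hT
  have h1 : Real.log T ≤ T ^ (1 / 8 : ℝ) / (1 / 8) :=
    Real.log_le_rpow_div hT0.le (by norm_num)
  have h2 : (16 : ℝ) ≤ T ^ (1 / 8 : ℝ) := by
    have h3 : ((16 : ℝ) ^ 8) ^ (1 / 8 : ℝ) ≤ T ^ (1 / 8 : ℝ) :=
      Real.rpow_le_rpow (by positivity) hT (by norm_num)
    have h4 : ((16 : ℝ) ^ 8) ^ (1 / 8 : ℝ) = 16 := by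
      rw [← Real.rpow_natCast, ← Real.rpow_mul (by norm_num)]
      norm_num
    linarith
  have h5 : T ^ c ≤ T ^ (1 / 9 : ℝ) := Real.rpow_le_rpow_of_exponent_le hT1 hc
  have h6 : 0 < T ^ c := Real.rpow_pos_of_pos hT0 c
  have h7 : 0 < T ^ (1 / 8 : ℝ) := Real.rpow_pos_of_pos hT0 _
  have h8 : 0 ≤ Real.log T := Real.log_nonneg hT1
  rw [Real.log_pow]
  push_cast
  calc T ^ c * T ^ c * (2 * Real.log T)
      ≤ T ^ (1 / 9 : ℝ) * T ^ (1 / 9 : ℝ) * (16 * T ^ (1 / 8 : ℝ)) := by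
        apply mul_le_mul
        · exact mul_le_mul h5 h5 h6.le (by positivity)
        · have : T ^ (1 / 8 : ℝ) / (1 / 8) = 8 * T ^ (1 / 8 : ℝ) := by ring
          rw [this] at h1
          linarith
        · positivity
        · positivity
    _ ≤ T ^ (1 / 9 : ℝ) * T ^ (1 / 9 : ℝ) * (T ^ (1 / 8 : ℝ) * T ^ (1 / 8 : ℝ)) := by
        apply mul_le_mul_of_nonneg_left _ (by positivity)
        exact mul_le_mul_of_nonneg_right h2 h7.le
    _ = T ^ (1 / 9 + 1 / 9 + (1 / 8 + 1 / 8) : ℝ) := by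
        rw [← Real.rpow_add hT0, ← Real.rpow_add hT0, ← Real.rpow_add hT0]
    _ ≤ T ^ (1 / 2 : ℝ) := Real.rpow_le_rpow_of_exponent_le hT1 (by norm_num)
    _ = Real.sqrt T := by rw [Real.sqrt_eq_rpow]

private theorem sum_geom_half (N : ℕ) : ∑ i ∈ range N, ((1 : ℝ) / 2) ^ i ≤ 2 := by
  have h := Summable.sum_le_tsum (range N) (fun i _ => by positivity) summable_geometric_two
  rwa [tsum_geometric_two] at h

theorem core : CoreS := by
  classical
  obtain ⟨C0, C1, hC0, hC1, hsiv⟩ := siv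
  obtain ⟨C2, hC2, havt⟩ := avt
  set c2 : ℝ := 1 / (C0 + 8) with hc2
  have hc2p : 0 < c2 := by positivity
  have hc2m : c2 * (C0 + 8) = 1 := by rw [hc2]; field_simp
  have hc29 : c2 ≤ 1 / 9 := by
    rw [hc2]
    exact one_div_le_one_div_of_le (by norm_num) (by linarith)
  obtain ⟨D, hD, hlev⟩ := level (16 / c2) (by positivity)
  refine ⟨c2, C1 * C2 * (2 * D), 16 ^ 8 + 2 ^ (1 / c2), hc2p, by positivity, ?_, ?_⟩
  · have : (0 : ℝ) < 2 ^ (1 / c2) := by positivity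
    linarith [show (2 : ℝ) ≤ 16 ^ 8 by norm_num]
  intro T hT m hm hmT r0 r1 r2 r3 A0 A1 A2 H0 H1 H2 L j hH0 hH1 hH2 hL hA0 hA1 hA2
  have h2c : (0 : ℝ) < 2 ^ (1 / c2) := by positivity
  have hT16 : (16 : ℝ) ^ 8 ≤ T := by linarith
  have hT2 : (2 : ℝ) ^ (1 / c2) ≤ T := by
    have : (0 : ℝ) ≤ 16 ^ 8 := by positivity
    linarith
  have hT0 : 0 < T := lt_of_lt_of_le (by positivity) hT16
  have hT1 : 1 < T := lt_of_lt_of_le (by norm_num) hT16
  set z : ℝ := T ^ c2 with hz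
  have hz2 : 2 ≤ z := by
    have h1 : ((2 : ℝ) ^ (1 / c2)) ^ c2 ≤ T ^ c2 :=
      Real.rpow_le_rpow (by positivity) hT2 hc2p.le
    rwa [← Real.rpow_mul (by norm_num), one_div_mul_cancel hc2p.ne', Real.rpow_one] at h1
  have hlz : Real.log z = c2 * Real.log T := by rw [hz, Real.log_rpow hT0]
  have hlT : 0 < Real.log T := Real.log_pos hT1
  have hlz0 : 0 < Real.log z := by rw [hlz]; positivity
  have hthr := threshold T c2 hT16 hc29
  set N : ℕ := ⌊2 * Real.log z⌋₊ + 1 with hN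
  have hNlt : 2 * Real.log z < N := by
    rw [hN]; push_cast
    exact Nat.lt_floor_add_one _
  have hmr : (1 : ℝ) ≤ m := by exact_mod_cast hm
  have hB : (2 : ℝ) ≤ T ^ 2 := by nlinarith [show (2 : ℝ) ≤ 16 ^ 8 by norm_num]
  have hlB : 0 ≤ Real.log (T ^ 2) := Real.log_nonneg (by linarith)
  -- the constants for one prefix
  have hpre : ∀ i, ∀ a ∈ AA z i, 1 ≤ a ∧ 1 < ww z i ∧
      C0 * Real.log (ww z i) ≤ Real.log ((L : ℝ) / (a * m)) ∧ 1 ≤ (L : ℝ) / (a * m) ∧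
      a * m * Real.log (T ^ 2) ≤ Real.sqrt T := by
    intro i a ha
    obtain ⟨ha1, haz, _⟩ := mem_AA (by linarith) ha
    have har : (1 : ℝ) ≤ a := by exact_mod_cast ha1
    have hw0 : 0 < Real.log (ww z i) := by rw [log_ww]; positivity
    have ham : (a : ℝ) * m ≤ z * z := mul_le_mul haz hmT (by linarith) (by linarith)
    have ham0 : (0 : ℝ) < (a : ℝ) * m := by positivity
    have hdiv : Real.sqrt T / (z * z) ≤ (L : ℝ) / (a * m) :=
      div_le_div₀ (by positivity) hL ham0 ham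
    have hsq : 0 < Real.sqrt T := Real.sqrt_pos.2 hT0
    have hlogd : Real.log (Real.sqrt T / (z * z)) = (1 / 2 - 2 * c2) * Real.log T := by
      rw [Real.log_div hsq.ne' (by positivity), Real.log_mul (by positivity) (by positivity),
        Real.log_sqrt hT0.le, hlz]
      ring
    have hlogw : Real.log (ww z i) ≤ c2 / 2 * Real.log T := by
      rw [log_ww, hlz]
      have : (2 : ℝ) ≤ 2 ^ (i + 1) := by
        calc (2 : ℝ) = 2 ^ 1 := by norm_num
          _ ≤ 2 ^ (i + 1) := pow_le_pow_right₀ (by norm_num) (by omega)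
      calc c2 * Real.log T / 2 ^ (i + 1) ≤ c2 * Real.log T / 2 :=
            div_le_div_of_nonneg_left (by positivity) (by norm_num) this
        _ = _ := by ring
    refine ⟨ha1, ?_, ?_, ?_, ?_⟩
    · by_contra hcon
      push Not at hcon
      have hwp : 0 < ww z i := Real.exp_pos _
      have := Real.log_nonpos hwp.le hcon
      linarith
    · have h1 := Real.log_le_log (by positivity) hdiv
      rw [hlogd] at h1
      refine le_trans ?_ h1
      calc C0 * Real.log (ww z i) ≤ C0 * (c2 / 2 * Real.log T) :=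
            mul_le_mul_of_nonneg_left hlogw (by linarith)
        _ = (C0 * c2 / 2) * Real.log T := by ring
        _ ≤ (1 / 2 - 2 * c2) * Real.log T := by
            apply mul_le_mul_of_nonneg_right _ hlT.le
            nlinarith
    · have h1 : 0 ≤ Real.log (Real.sqrt T / (z * z)) := by
        rw [hlogd]
        apply mul_nonneg _ hlT.le
        linarith
      have h2 : 1 ≤ Real.sqrt T / (z * z) := by
        by_contra hcon
        push Not at hcon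
        have := Real.log_neg (by positivity) hcon
        linarith
      linarith
    · calc (a : ℝ) * m * Real.log (T ^ 2) ≤ z * z * Real.log (T ^ 2) :=
            mul_le_mul_of_nonneg_right ham hlB
        _ ≤ _ := hthr
  set V : ℝ := H0 * H1 * H2 * L / (m : ℝ) ^ 4 with hV
  have hV0 : 0 ≤ V := by positivity
  have g2 := gg_one_le m
  set W : ℝ := C1 * C2 * gg m ^ 4 * V with hW
  have hW0 : 0 ≤ W := by positivity
  calc ∑ p ∈ II A0 H0 m r0, ∑ y1 ∈ II A1 H1 m r1, ∑ y2 ∈ II A2 H2 m r2,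
        ∑ y3 ∈ JJ T (j p y1 y2) L m r3 p y1 y2, (ff m p y1 y2 y3 : ℝ)
      ≤ ∑ p ∈ II A0 H0 m r0, ∑ y1 ∈ II A1 H1 m r1, ∑ y2 ∈ II A2 H2 m r2,
        ∑ y3 ∈ JJ T (j p y1 y2) L m r3 p y1 y2, ∑ i ∈ range N, ∑ a ∈ AA z i,
        (if Nat.Coprime a m ∧ IsCoprime (a : ℤ) p ∧ Cnd a m (ww z i) p y1 y2 y3 then
          (3 : ℝ) ^ (16 / c2 * 2 ^ i) * rr a y1 y2 else 0) := by
        refine sum_le_sum (fun p hp => sum_le_sum (fun y1 hy1 => sum_le_sum (fun y2 hy2 =>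
          sum_le_sum (fun y3 hy3 => ?_))))
        unfold JJ at hy3
        rw [mem_filter] at hy3
        exact pt hT1 hc2p hm N hNlt hy3.2.2.1 hy3.2.2.2
    _ = ∑ i ∈ range N, ∑ a ∈ AA z i, ∑ p ∈ II A0 H0 m r0, ∑ y1 ∈ II A1 H1 m r1,
        ∑ y2 ∈ II A2 H2 m r2, ∑ y3 ∈ JJ T (j p y1 y2) L m r3 p y1 y2,
        (if Nat.Coprime a m ∧ IsCoprime (a : ℤ) p ∧ Cnd a m (ww z i) p y1 y2 y3 then
          (3 : ℝ) ^ (16 / c2 * 2 ^ i) * rr a y1 y2 else 0) := by
        have swap : ∀ {α β : Type} (s : Finset α) (t : Finset β) (u : ℕ → Finset ℕ)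
            (f : α → ℕ → ℕ → ℝ),
            ∑ x ∈ s, ∑ i ∈ range N, ∑ a ∈ u i, f x i a =
              ∑ i ∈ range N, ∑ a ∈ u i, ∑ x ∈ s, f x i a := by
          intro α β s t u f
          rw [sum_comm]
          refine sum_congr rfl (fun i _ => ?_)
          rw [sum_comm]
        rw [← swap (II A0 H0 m r0) (∅ : Finset ℕ)]
        refine sum_congr rfl (fun p _ => ?_)
        rw [← swap (II A1 H1 m r1) (∅ : Finset ℕ)]
        refine sum_congr rfl (fun y1 _ => ?_)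
        rw [← swap (II A2 H2 m r2) (∅ : Finset ℕ)]
        refine sum_congr rfl (fun y2 _ => ?_)
        rw [← swap (JJ T (j p y1 y2) L m r3 p y1 y2) (∅ : Finset ℕ)]
    _ ≤ ∑ i ∈ range N, ∑ a ∈ AA z i,
        (3 : ℝ) ^ (16 / c2 * 2 ^ i) * (1 / Real.log (ww z i)) * (gg a ^ 2 / (a : ℝ)) * W := by
        refine sum_le_sum (fun i _ => sum_le_sum (fun a ha => ?_))
        obtain ⟨q1, q2, q3, q4, q5⟩ := hpre i a ha
        exact term hC1 hC2 hsiv havt hm r0 r1 r2 r3 A0 A1 A2 H0 H1 H2 L j hB hA0 hA1 hA2 q1 q2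
          (by positivity) q3 q4 (q5.trans hH0) (q5.trans hH1) (q5.trans hH2)
    _ = (∑ i ∈ range N, (3 : ℝ) ^ (16 / c2 * 2 ^ i) * (1 / Real.log (ww z i)) *
        ∑ a ∈ AA z i, gg a ^ 2 / (a : ℝ)) * W := by
        rw [sum_mul]
        refine sum_congr rfl (fun i _ => ?_)
        rw [mul_sum, sum_mul]
    _ ≤ (∑ i ∈ range N, D * (1 / 2) ^ i) * W :=
        mul_le_mul_of_nonneg_right (sum_le_sum (fun i _ => hlev z hz2 i)) hW0
    _ ≤ (2 * D) * W := by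
        apply mul_le_mul_of_nonneg_right _ hW0
        rw [← mul_sum]
        have := sum_geom_half N
        nlinarith
    _ = _ := by rw [hW]; ring

end Pool.Agent.PPS
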