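import Pool.Agent.PPS.Ggl

/-!
# Average of `gg` in a progression (difficulty 4)

Proof (section (E) of the notes). For `y ≠ 0`, `|y| ≤ B`:
`gg |y| ≤ gg M * ∏ l ∣ y, l ∤ M, (1 + 1/(l-1)) = gg M * ∑ d ∣ y squarefree prime to M, 1/φ(d)`
(`Finset.prod_one_add` or `prod_add`; the subsets of the set of primes; or
`Nat.sum_divisors_filter_squarefree`). Exchange the sums: for `d ≤ B` prime to `M` the
`y ∈ [A, A + H)` with `y = c` mod `M`, `d ∣ y` lie in one class modulo `d M`: at most `H / (d M) + 1`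
of them. `∑ 1/(d φ(d))` over squarefree `d` is bounded (`≤ ∏ (1 + 1/(l (l-1))) ≤ exp ∑ 2/l^2`), and
`∑ d ≤ B squarefree, 1/φ(d) ≤ ∏ l ≤ B, (1 - 1/l)⁻¹ ≤ C log B` (`prodinv`), finally
`M log B ≤ H`.
-/

set_option autoImplicit false

namespace Pool.Agent.PPS

open Finset

private noncomputable def hh (T : Finset ℕ) : ℝ := ∏ l ∈ T, (1 / ((l : ℝ) - 1))

private theorem hh_nonneg {T : Finset ℕ} (hT : ∀ l ∈ T, l.Prime) : 0 ≤ hh T := by
  refine prod_nonneg (fun l hl => ?_)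
  have h : (2 : ℝ) ≤ l := by exact_mod_cast (hT l hl).two_le
  have h2 : (0 : ℝ) < (l : ℝ) - 1 := by linarith
  positivity

private theorem inv_eq {l : ℕ} (hl : l.Prime) :
    (1 - 1 / (l : ℝ))⁻¹ = 1 + 1 / ((l : ℝ) - 1) := by
  have h : (2 : ℝ) ≤ l := by exact_mod_cast hl.two_le
  have h1 : (l : ℝ) - 1 ≠ 0 := by linarith
  have h2 : (l : ℝ) ≠ 0 := by linarith
  have h3 : 1 - 1 / (l : ℝ) = ((l : ℝ) - 1) / l := by field_simp
  rw [h3]
  field_simp
  ring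

private theorem inv_one_le {l : ℕ} (hl : l.Prime) : (1 : ℝ) ≤ (1 - 1 / (l : ℝ))⁻¹ := by
  rw [inv_eq hl]
  have h : (2 : ℝ) ≤ l := by exact_mod_cast hl.two_le
  have h2 : (0 : ℝ) < (l : ℝ) - 1 := by linarith
  have : 0 ≤ 1 / ((l : ℝ) - 1) := by positivity
  linarith

/-- `gg n ≤ gg M * ∑ T, hh T` over the sets `T` of primes of `n` not dividing `M` -/
private theorem gg_le (n M : ℕ) :
    gg n ≤ gg M * ∑ T ∈ (n.primeFactors \ M.primeFactors).powerset, hh T := by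
  classical
  have h1 : gg n ≤ ∏ l ∈ M.primeFactors ∪ (n.primeFactors \ M.primeFactors),
      (1 - 1 / (l : ℝ))⁻¹ := by
    have hsub : n.primeFactors ⊆ M.primeFactors ∪ (n.primeFactors \ M.primeFactors) := by
      rw [union_sdiff_self_eq_union]
      exact subset_union_right
    have hone : ∀ l ∈ M.primeFactors ∪ (n.primeFactors \ M.primeFactors),
        (1 : ℝ) ≤ (1 - 1 / (l : ℝ))⁻¹ := by
      intro l hl
      refine inv_one_le ?_
      rw [mem_union, mem_sdiff] at hl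
      rcases hl with hl | hl
      · exact Nat.prime_of_mem_primeFactors hl
      · exact Nat.prime_of_mem_primeFactors hl.1
    rw [← prod_sdiff hsub]
    have h2 : (1 : ℝ) ≤ ∏ l ∈ (M.primeFactors ∪ (n.primeFactors \ M.primeFactors))
        \ n.primeFactors, (1 - 1 / (l : ℝ))⁻¹ := by
      have h3 := prod_le_prod (s := (M.primeFactors ∪ (n.primeFactors \ M.primeFactors))
        \ n.primeFactors) (f := fun _ => (1 : ℝ)) (g := fun l : ℕ => (1 - 1 / (l : ℝ))⁻¹)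
        (fun l _ => zero_le_one) (fun l hl => hone l (mem_sdiff.1 hl).1)
      rwa [prod_const_one] at h3
    have h4 : 0 ≤ ∏ l ∈ n.primeFactors, (1 - 1 / (l : ℝ))⁻¹ :=
      prod_nonneg (fun l hl => zero_le_one.trans (hone l (hsub hl)))
    exact le_mul_of_one_le_left h4 h2
  rw [prod_union disjoint_sdiff] at h1
  refine h1.trans (le_of_eq ?_)
  have h2 : ∏ l ∈ n.primeFactors \ M.primeFactors, (1 - 1 / (l : ℝ))⁻¹
      = ∏ l ∈ n.primeFactors \ M.primeFactors, (1 + 1 / ((l : ℝ) - 1)) := by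
    refine prod_congr rfl (fun l hl => ?_)
    rw [mem_sdiff] at hl
    exact inv_eq (Nat.prime_of_mem_primeFactors hl.1)
  rw [h2, prod_one_add]
  rfl

/-- the elements of a progression divisible by all `l ∈ T` -/
private theorem cnt (A c : ℤ) (H M : ℕ) (hM : 1 ≤ M) (T : Finset ℕ) (hT : ∀ l ∈ T, l.Prime)
    (hTM : ∀ l ∈ T, ¬ l ∣ M) :
    (((II A H M c).filter (fun y => ∀ l ∈ T, (l : ℤ) ∣ y)).card : ℝ)
      ≤ H / (M * ∏ l ∈ T, (l : ℝ)) + 1 := by
  classical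
  rcases ((II A H M c).filter (fun y => ∀ l ∈ T, (l : ℤ) ∣ y)).eq_empty_or_nonempty with he | hne
  · rw [he, card_empty, Nat.cast_zero]
    positivity
  obtain ⟨y0, hy0⟩ := hne
  rw [mem_filter, II, mem_filter] at hy0
  have hpos : 0 < M * ∏ l ∈ T, l := Nat.mul_pos hM (prod_pos (fun l hl => (hT l hl).pos))
  have hr : (0 : ℤ) < ((M * ∏ l ∈ T, l : ℕ) : ℤ) := by exact_mod_cast hpos
  have hsub : (II A H M c).filter (fun y => ∀ l ∈ T, (l : ℤ) ∣ y)
      ⊆ (Ico A (A + H)).filter (fun y => y ≡ y0 [ZMOD ((M * ∏ l ∈ T, l : ℕ) : ℤ)]) := by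
    intro y hy
    rw [mem_filter, II, mem_filter] at hy
    rw [mem_filter]
    refine ⟨hy.1.1, ?_⟩
    rw [Int.modEq_comm, Int.modEq_iff_dvd]
    have h1 : (M : ℤ) ∣ y - y0 := by
      have := dvd_sub hy.1.2.1 hy0.1.2.1
      rwa [sub_sub_sub_cancel_right] at this
    have h2 : ((∏ l ∈ T, l : ℕ) : ℤ) ∣ y - y0 := by
      rw [Nat.cast_prod]
      refine Finset.prod_dvd_of_coprime ?_ (fun l hl => dvd_sub (hy.2 l hl) (hy0.2 l hl))
      intro a ha b hb hab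
      exact Nat.isCoprime_iff_coprime.2 ((Nat.coprime_primes (hT a ha) (hT b hb)).2 hab)
    rw [Nat.cast_mul]
    refine IsCoprime.mul_dvd ?_ h1 h2
    rw [Nat.isCoprime_iff_coprime]
    refine Nat.Coprime.prod_right (fun l hl => ?_)
    exact ((Nat.Prime.coprime_iff_not_dvd (hT l hl)).2 (hTM l hl)).symm
  have hc := card_le_card hsub
  have hcc := Int.Ico_filter_modEq_card A (A + H) hr y0
  have hb : (((Ico A (A + H)).filter
      (fun y => y ≡ y0 [ZMOD ((M * ∏ l ∈ T, l : ℕ) : ℤ)])).card : ℝ)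
      ≤ H / (M * ∏ l ∈ T, (l : ℝ)) + 1 := by
    have hd : (M * ∏ l ∈ T, (l : ℝ)) = ((M * ∏ l ∈ T, l : ℕ) : ℝ) := by push_cast; rfl
    rw [hd]
    set D : ℕ := M * ∏ l ∈ T, l with hD
    have hD' : (0 : ℝ) < D := by exact_mod_cast hpos
    have hcr : (((Ico A (A + H)).filter (fun y => y ≡ y0 [ZMOD (D : ℤ)])).card : ℝ)
        = ((max (⌈(((A + H : ℤ) : ℚ) - y0) / ((D : ℤ) : ℚ)⌉ - ⌈((A : ℚ) - y0) / ((D : ℤ) : ℚ)⌉) 0 : ℤ) : ℝ) := by
      have := congrArg (fun z : ℤ => (z : ℝ)) hcc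
      simpa using this
    rw [hcr]
    push_cast
    have hnn : (0 : ℝ) ≤ H / D + 1 := by positivity
    refine max_le ?_ hnn
    have e1 : (⌈(((A + H : ℤ) : ℚ) - y0) / ((D : ℤ) : ℚ)⌉ : ℚ)
        < (((A + H : ℤ) : ℚ) - y0) / ((D : ℤ) : ℚ) + 1 := Int.ceil_lt_add_one _
    have e2 : ((A : ℚ) - y0) / ((D : ℤ) : ℚ) ≤ (⌈((A : ℚ) - y0) / ((D : ℤ) : ℚ)⌉ : ℚ) :=
      Int.le_ceil _
    have e3 : (⌈(((A + H : ℤ) : ℚ) - y0) / ((D : ℤ) : ℚ)⌉ : ℚ)
        - (⌈((A : ℚ) - y0) / ((D : ℤ) : ℚ)⌉ : ℚ) ≤ (H : ℚ) / D + 1 := by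
      have e4 : (((A + H : ℤ) : ℚ) - y0) / ((D : ℤ) : ℚ) - ((A : ℚ) - y0) / ((D : ℤ) : ℚ)
          = (H : ℚ) / D := by
        push_cast
        ring
      linarith
    have e5 := (Rat.cast_le (K := ℝ)).2 e3
    push_cast at e5
    exact e5
  refine le_trans ?_ hb
  exact_mod_cast hc

private theorem sum_sq (P : Finset ℕ) (hP : ∀ l ∈ P, l.Prime) :
    ∑ l ∈ P, 1 / (((l : ℝ) - 1) * l) ≤ 1 := by
  have hsub : P ⊆ Ico 2 (P.sup id + 1) := by
    intro l hl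
    rw [mem_Ico]
    exact ⟨(hP l hl).two_le, Nat.lt_succ_of_le (Finset.le_sup (f := id) hl)⟩
  have h1 : ∀ n : ℕ, ∑ l ∈ Ico 2 (n + 2), 1 / (((l : ℝ) - 1) * l) = 1 - 1 / ((n : ℝ) + 1) := by
    intro n
    induction n with
    | zero => simp
    | succ n ih =>
      rw [show n + 1 + 2 = (n + 2) + 1 from rfl, sum_Ico_succ_top (by omega), ih]
      push_cast
      have : (n : ℝ) + 1 ≠ 0 := by positivity
      have : (n : ℝ) + 2 ≠ 0 := by positivity
      have : (n : ℝ) + 1 + 1 ≠ 0 := by positivity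
      have : (n : ℝ) + 2 - 1 ≠ 0 := by
        have : (0:ℝ) ≤ n := Nat.cast_nonneg n
        linarith
      field_simp
      ring
  have h2 : ∑ l ∈ P, 1 / (((l : ℝ) - 1) * l)
      ≤ ∑ l ∈ Ico 2 (P.sup id + 2), 1 / (((l : ℝ) - 1) * l) := by
    refine sum_le_sum_of_subset_of_nonneg (hsub.trans (Ico_subset_Ico_right (by omega))) ?_
    intro l hl _
    rw [mem_Ico] at hl
    have h : (2 : ℝ) ≤ l := by exact_mod_cast hl.1
    have h2 : (0 : ℝ) < (l : ℝ) - 1 := by linarith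
    positivity
  refine h2.trans ?_
  rw [h1]
  have : 0 ≤ 1 / (((P.sup id : ℕ) : ℝ) + 1) := by positivity
  linarith

private theorem sum_hh_div (P : Finset ℕ) (hP : ∀ l ∈ P, l.Prime) :
    ∑ T ∈ P.powerset, hh T / ∏ l ∈ T, (l : ℝ) ≤ Real.exp 1 := by
  have h1 : ∑ T ∈ P.powerset, hh T / ∏ l ∈ T, (l : ℝ)
      = ∏ l ∈ P, (1 + 1 / (((l : ℝ) - 1) * l)) := by
    rw [prod_one_add]
    refine sum_congr rfl (fun T _ => ?_)
    rw [hh, ← prod_div_distrib]
    refine prod_congr rfl (fun l _ => ?_)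
    rw [div_div]
  rw [h1]
  have h2 : ∏ l ∈ P, (1 + 1 / (((l : ℝ) - 1) * l)) ≤ ∏ l ∈ P, Real.exp (1 / (((l : ℝ) - 1) * l)) := by
    refine prod_le_prod (fun l hl => ?_) (fun l hl => ?_)
    · have h : (2 : ℝ) ≤ l := by exact_mod_cast (hP l hl).two_le
      have h2 : (0 : ℝ) < (l : ℝ) - 1 := by linarith
      positivity
    · rw [add_comm]
      exact Real.add_one_le_exp _
  refine h2.trans ?_
  rw [← Real.exp_sum]
  exact Real.exp_le_exp.2 (sum_sq P hP)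

theorem avo : ∃ C : ℝ, 0 < C ∧ ∀ (A c : ℤ) (H M : ℕ) (B : ℝ), 1 ≤ M → 2 ≤ B →
    (∀ x ∈ Ico A (A + H), ((|x| : ℤ) : ℝ) ≤ B) → M * Real.log B ≤ H →
    ∑ y ∈ II A H M c, gg y.natAbs ≤ C * gg M * (H / M) := by
  classical
  obtain ⟨C1, hC1, hP⟩ := prodinv
  refine ⟨Real.exp 1 + C1, by positivity, ?_⟩
  intro A c H M B hM hB hAB hMB
  have hM' : (0 : ℝ) < M := by exact_mod_cast hM
  have hB0 : (0 : ℝ) ≤ B := by linarith
  have hz : 2 ≤ ⌊B⌋₊ := Nat.le_floor (by exact_mod_cast hB)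
  have hgM : 0 ≤ gg M := le_trans zero_le_one (gg_one_le M)
  set P : Finset ℕ := (NTot.PZ ⌊B⌋₊).filter (fun l => ¬ l ∣ M) with hPdef
  have hPp : ∀ l ∈ P, l.Prime := by
    intro l hl
    rw [hPdef, mem_filter, NTot.PZ, mem_filter] at hl
    exact hl.1.2
  have hPM : ∀ l ∈ P, ¬ l ∣ M := by
    intro l hl
    rw [hPdef, mem_filter] at hl
    exact hl.2
  -- the total mass
  have hmass : ∑ T ∈ P.powerset, hh T ≤ C1 * Real.log B := by
    have h1 : ∑ T ∈ P.powerset, hh T ≤ ∑ T ∈ (NTot.PZ ⌊B⌋₊).powerset, hh T := by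
      refine sum_le_sum_of_subset_of_nonneg (powerset_mono.2 (filter_subset _ _)) ?_
      intro T hT _
      rw [mem_powerset] at hT
      refine hh_nonneg (fun l hl => ?_)
      have := hT hl
      rw [NTot.PZ, mem_filter] at this
      exact this.2
    have h2 : ∑ T ∈ (NTot.PZ ⌊B⌋₊).powerset, hh T
        = ∏ l ∈ NTot.PZ ⌊B⌋₊, (1 - 1 / (l : ℝ))⁻¹ := by
      have h3 : ∏ l ∈ NTot.PZ ⌊B⌋₊, (1 - 1 / (l : ℝ))⁻¹
          = ∏ l ∈ NTot.PZ ⌊B⌋₊, (1 + 1 / ((l : ℝ) - 1)) := by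
        refine prod_congr rfl (fun l hl => ?_)
        rw [NTot.PZ, mem_filter] at hl
        exact inv_eq hl.2
      rw [h3, prod_one_add]
      rfl
    rw [h2] at h1
    refine h1.trans ((hP _ hz).trans ?_)
    refine mul_le_mul_of_nonneg_left ?_ hC1.le
    refine Real.log_le_log (by exact_mod_cast (by omega : 0 < ⌊B⌋₊)) (Nat.floor_le hB0)
  have h0 : ∑ y ∈ II A H M c, gg y.natAbs
      ≤ ∑ y ∈ II A H M c, gg M * ∑ T ∈ (y.natAbs.primeFactors \ M.primeFactors).powerset, hh T :=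
    sum_le_sum (fun y _ => gg_le _ _)
  rw [← mul_sum] at h0
  have h1 : ∑ y ∈ II A H M c, ∑ T ∈ (y.natAbs.primeFactors \ M.primeFactors).powerset, hh T
      = ∑ T ∈ P.powerset, ∑ y ∈ (II A H M c).filter (fun y => ∀ l ∈ T, (l : ℤ) ∣ y), hh T := by
    refine sum_comm' ?_
    intro y T
    simp only [mem_filter, mem_powerset]
    constructor
    · rintro ⟨hy, hT⟩
      have hy' := hy
      rw [II, mem_filter] at hy'
      refine ⟨⟨hy, fun l hl => ?_⟩, fun l hl => ?_⟩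
      · have := hT hl
        rw [mem_sdiff] at this
        exact Int.natCast_dvd.2 (Nat.dvd_of_mem_primeFactors this.1)
      · have := hT hl
        rw [mem_sdiff] at this
        have hlp := Nat.prime_of_mem_primeFactors this.1
        rw [hPdef, mem_filter, NTot.PZ, mem_filter, mem_Icc]
        refine ⟨⟨⟨hlp.one_lt.le, ?_⟩, hlp⟩, ?_⟩
        · refine Nat.le_floor ?_
          refine le_trans ?_ (hAB y hy'.1)
          have h := Nat.le_of_mem_primeFactors this.1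
          rw [Int.abs_eq_natAbs]
          exact_mod_cast h
        · intro hd
          exact this.2 (Nat.mem_primeFactors.2 ⟨hlp, hd, by omega⟩)
    · rintro ⟨⟨hy, hT⟩, hTP⟩
      have hy' := hy
      rw [II, mem_filter] at hy'
      refine ⟨hy, fun l hl => ?_⟩
      rw [mem_sdiff]
      refine ⟨Nat.mem_primeFactors.2 ⟨hPp l (hTP hl), Int.natCast_dvd.1 (hT l hl),
        by simpa using hy'.2.2⟩, fun hd => hPM l (hTP hl) (Nat.dvd_of_mem_primeFactors hd)⟩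
  have h2 : ∑ T ∈ P.powerset, ∑ y ∈ (II A H M c).filter (fun y => ∀ l ∈ T, (l : ℤ) ∣ y), hh T
      ≤ ∑ T ∈ P.powerset, (H / M * (hh T / ∏ l ∈ T, (l : ℝ)) + hh T) := by
    refine sum_le_sum (fun T hT => ?_)
    rw [mem_powerset] at hT
    rw [sum_const, nsmul_eq_mul]
    have h3 := cnt A c H M hM T (fun l hl => hPp l (hT hl)) (fun l hl => hPM l (hT hl))
    have h4 : 0 ≤ hh T := hh_nonneg (fun l hl => hPp l (hT hl))
    refine (mul_le_mul_of_nonneg_right h3 h4).trans (le_of_eq ?_)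
    have h5 : ∏ l ∈ T, (l : ℝ) ≠ 0 := by
      refine prod_ne_zero_iff.2 (fun l hl => ?_)
      exact_mod_cast (hPp l (hT hl)).ne_zero
    field_simp
  have h3 : ∑ T ∈ P.powerset, (H / M * (hh T / ∏ l ∈ T, (l : ℝ)) + hh T)
      ≤ (Real.exp 1 + C1) * (H / M) := by
    rw [sum_add_distrib, ← mul_sum]
    have h4 : (H : ℝ) / M * ∑ T ∈ P.powerset, hh T / ∏ l ∈ T, (l : ℝ)
        ≤ (H : ℝ) / M * Real.exp 1 :=
      mul_le_mul_of_nonneg_left (sum_hh_div P hPp) (by positivity)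
    have h5 : Real.log B ≤ H / M := by
      rw [le_div_iff₀ hM', mul_comm]
      exact hMB
    have h6 : C1 * Real.log B ≤ C1 * (H / M) := mul_le_mul_of_nonneg_left h5 hC1.le
    linarith
  have h4 : ∑ y ∈ II A H M c, ∑ T ∈ (y.natAbs.primeFactors \ M.primeFactors).powerset, hh T
      ≤ (Real.exp 1 + C1) * (H / M) := by
    rw [h1]
    exact h2.trans h3
  calc ∑ y ∈ II A H M c, gg y.natAbs
      ≤ gg M * ∑ y ∈ II A H M c, ∑ T ∈ (y.natAbs.primeFactors \ M.primeFactors).powerset, hh T := h0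
    _ ≤ gg M * ((Real.exp 1 + C1) * (H / M)) := mul_le_mul_of_nonneg_left h4 hgM
    _ = (Real.exp 1 + C1) * gg M * (H / M) := by ring

end Pool.Agent.PPS
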