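import Pool.Agent.PPS.Defs

/-!
# The number of cube roots
-/

set_option autoImplicit false

namespace Pool.Agent.PPS

open Finset

private theorem Rrl_iff (a : ℕ) (y1 y2 : ℤ) (t u : ℤ) (h : (a : ℤ) ∣ t - u) :
    (a : ℤ) ∣ t ^ 3 * y1 - y2 ↔ (a : ℤ) ∣ u ^ 3 * y1 - y2 := by
  apply dvd_iff_dvd_of_dvd_sub
  have e : t ^ 3 * y1 - y2 - (u ^ 3 * y1 - y2) = (t - u) * ((t ^ 2 + t * u + u ^ 2) * y1) := by ring
  rw [e]
  exact Dvd.dvd.mul_right h _

private theorem Rrl_dvd (a t u : ℕ) (h : t ≡ u [MOD a]) : (a : ℤ) ∣ (t : ℤ) - (u : ℤ) := by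
  have h1 := (Nat.modEq_iff_dvd.mp h)
  rw [← dvd_neg, neg_sub]
  exact h1

open Polynomial in
theorem rr_le {l : ℕ} (hl : l.Prime) {y1 : ℤ} (y2 : ℤ) (h : ¬ (l : ℤ) ∣ y1) :
    rr l y1 y2 ≤ 3 := by
  classical
  have : Fact l.Prime := ⟨hl⟩
  obtain ⟨p, hp⟩ : ∃ p : (ZMod l)[X], p = C (y1 : ZMod l) * X ^ 3 + C 0 * X ^ 2 +
      C 0 * X + C (-(y2 : ZMod l)) := ⟨_, rfl⟩
  have hy1 : (y1 : ZMod l) ≠ 0 := by
    intro h0
    exact h ((ZMod.intCast_zmod_eq_zero_iff_dvd y1 l).mp h0)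
  have hp0 : p ≠ 0 := by
    intro h0
    obtain ⟨P, hP⟩ : ∃ P : Cubic (ZMod l), P = ⟨(y1 : ZMod l), 0, 0, -(y2 : ZMod l)⟩ := ⟨_, rfl⟩
    have hpP : p = P.toPoly := by rw [hp, hP]; rfl
    have e3 : P.toPoly.coeff 3 = 0 := by rw [← hpP, h0, coeff_zero]
    rw [Cubic.coeff_eq_a, hP] at e3
    exact hy1 e3
  have hcard : p.roots.toFinset.card ≤ 3 := by
    refine (Multiset.toFinset_card_le _).trans ((card_roots' p).trans ?_)
    rw [hp]
    exact natDegree_cubic_le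
  refine le_trans ?_ hcard
  unfold rr
  refine Finset.card_le_card_of_injOn (fun t : ℕ => (t : ZMod l)) ?_ ?_
  · intro t ht
    rw [Finset.mem_coe, Finset.mem_filter] at ht
    rw [Finset.mem_coe, Multiset.mem_toFinset, mem_roots hp0, IsRoot.def, hp]
    simp only [eval_add, eval_mul, eval_C, eval_pow, eval_X]
    have h1 := (ZMod.intCast_zmod_eq_zero_iff_dvd ((t : ℤ) ^ 3 * y1 - y2) l).mpr ht.2
    push_cast at h1
    linear_combination h1
  · intro t ht u hu htu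
    rw [Finset.mem_coe, Finset.mem_filter, Finset.mem_range] at ht hu
    have h1 : t ≡ u [MOD l] := (ZMod.natCast_eq_natCast_iff t u l).mp htu
    exact Nat.ModEq.eq_of_lt_of_lt h1 ht.1 hu.1

theorem rr_mul {a b : ℕ} (ha : a ≠ 0) (hb : b ≠ 0) (hab : Nat.Coprime a b) (y1 y2 : ℤ) :
    rr (a * b) y1 y2 = rr a y1 y2 * rr b y1 y2 := by
  classical
  unfold rr
  rw [← Finset.card_product]
  have hint : IsCoprime (a : ℤ) (b : ℤ) := Nat.isCoprime_iff_coprime.mpr hab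
  refine Finset.card_bij (fun t _ => (t % a, t % b)) ?_ ?_ ?_
  · intro t ht
    rw [Finset.mem_filter] at ht
    have hab' : ((a * b : ℕ) : ℤ) = (a : ℤ) * (b : ℤ) := by push_cast; ring
    have h1 : (a : ℤ) ∣ (t : ℤ) ^ 3 * y1 - y2 :=
      (Dvd.intro _ rfl : (a : ℤ) ∣ (a : ℤ) * (b : ℤ)).trans (hab' ▸ ht.2)
    have h2 : (b : ℤ) ∣ (t : ℤ) ^ 3 * y1 - y2 :=
      (Dvd.intro_left _ rfl : (b : ℤ) ∣ (a : ℤ) * (b : ℤ)).trans (hab' ▸ ht.2)
    rw [Finset.mem_product, Finset.mem_filter, Finset.mem_filter]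
    refine ⟨⟨Finset.mem_range.mpr (Nat.mod_lt _ (Nat.pos_of_ne_zero ha)), ?_⟩,
      ⟨Finset.mem_range.mpr (Nat.mod_lt _ (Nat.pos_of_ne_zero hb)), ?_⟩⟩
    · exact (Rrl_iff a y1 y2 (t : ℤ) ((t % a : ℕ) : ℤ)
        (Rrl_dvd a t (t % a) (Nat.mod_modEq t a).symm)).mp h1
    · exact (Rrl_iff b y1 y2 (t : ℤ) ((t % b : ℕ) : ℤ)
        (Rrl_dvd b t (t % b) (Nat.mod_modEq t b).symm)).mp h2
  · intro t ht u hu h
    rw [Finset.mem_filter, Finset.mem_range] at ht hu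
    have h1 : t % a = u % a := congrArg Prod.fst h
    have h2 : t % b = u % b := congrArg Prod.snd h
    have h3 : t ≡ u [MOD a * b] := (Nat.modEq_and_modEq_iff_modEq_mul hab).mp ⟨h1, h2⟩
    exact Nat.ModEq.eq_of_lt_of_lt h3 ht.1 hu.1
  · rintro ⟨u, v⟩ huv
    rw [Finset.mem_product, Finset.mem_filter, Finset.mem_filter, Finset.mem_range,
      Finset.mem_range] at huv
    obtain ⟨⟨hu, hu'⟩, ⟨hv, hv'⟩⟩ := huv
    obtain ⟨k, hk⟩ : ∃ k, k = Nat.chineseRemainder hab u v := ⟨_, rfl⟩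
    have hk1 : k.1 ≡ u [MOD a] := k.2.1
    have hk2 : k.1 ≡ v [MOD b] := k.2.2
    have hk3 : k.1 < a * b := by rw [hk]; exact Nat.chineseRemainder_lt_mul hab u v ha hb
    refine ⟨k.1, ?_, ?_⟩
    · rw [Finset.mem_filter, Finset.mem_range]
      refine ⟨hk3, ?_⟩
      have h1 := (Rrl_iff a y1 y2 (k.1 : ℤ) (u : ℤ) (Rrl_dvd a _ _ hk1)).mpr hu'
      have h2 := (Rrl_iff b y1 y2 (k.1 : ℤ) (v : ℤ) (Rrl_dvd b _ _ hk2)).mpr hv'
      have h3 := hint.mul_dvd h1 h2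
      push_cast
      exact h3
    · have e1 : k.1 % a = u := by
        have : k.1 % a = u % a := hk1
        rw [this, Nat.mod_eq_of_lt hu]
      have e2 : k.1 % b = v := by
        have : k.1 % b = v % b := hk2
        rw [this, Nat.mod_eq_of_lt hv]
      exact Prod.ext e1 e2

theorem rr_prod (S : Finset ℕ) (hS : ∀ l ∈ S, l.Prime) (y1 y2 : ℤ) :
    ∏ l ∈ S, rr l y1 y2 = rr (∏ l ∈ S, l) y1 y2 := by
  classical
  induction S using Finset.induction_on with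
  | empty =>
    rw [Finset.prod_empty, Finset.prod_empty]
    unfold rr
    simp
  | insert l S hl ih =>
    have hlp : l.Prime := hS l (Finset.mem_insert_self l S)
    have hSp : ∀ m ∈ S, m.Prime := fun m hm => hS m (Finset.mem_insert_of_mem hm)
    rw [Finset.prod_insert hl, Finset.prod_insert hl, ih hSp]
    refine (rr_mul hlp.ne_zero ?_ ?_ y1 y2).symm
    · exact Finset.prod_ne_zero_iff.mpr fun m hm => (hSp m hm).ne_zero
    · refine Nat.Coprime.prod_right fun m hm => ?_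
      exact (Nat.coprime_primes hlp (hSp m hm)).mpr fun h => hl (h ▸ hm)

end Pool.Agent.PPS
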