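import Pool.Agent.PPS.Pfx
import Pool.Agent.PPS.Rrl

/-!
# Every `(p, y)` is covered by a prefix (difficulty 4)

Proof (section (C) of the notes). `S = SS m p y1 y2 y3`. Every `l ∈ S` is prime, divides `Δ`, not
`m p`, hence not `y1` (else `l ∣ p ^ 3`). Apply `pfx S z`.
* If `∏ S ≤ z`: `i = 0`, `a = ∏ S`; `f = rr a` by `rr_prod`.
* Else `q`, `a = ∏ l ∈ S.filter (· < q), l`. If `ww z 0 < q` (`ww z 0 = √z`): `i = 0`. If
  `q ≤ ww z 0`: let `i` be least with `ww z i < q` (exists: `ww z i → 1 < 2 ≤ q`; or take `i` with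
  `log z / 2 ^ (i+1) < log 2`), `i = k + 1`, `q ≤ ww z k`, so
  `a > z / q ≥ √z`, all primes of `a` are `< q ≤ ww z k`, all the others are `≥ q > ww z i`.
  `2 ≤ q ≤ ww z k` gives `2 ^ (k+1) * log 2 ≤ log z`, so `i = k + 1 ≤ 2 ^ (k+1) ≤ 2 * log z`.
* If `U` is the set of the primes of `S` not dividing `a`: all are `> ww z i`, the product of `U` divides
  `Δ`, so `#U * log (ww z i) ≤ log |Δ| ≤ 8 log T`, so with `log z = c2 * log T`:
  `#U ≤ 8 * 2 ^ (i+1) / c2 = (16 / c2) * 2 ^ i`; `f = rr a * ∏ l ∈ U, rr l ≤ rr a * 3 ^ #U`.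
-/

set_option autoImplicit false

namespace Pool.Agent.PPS

open Finset

private theorem cov_mem {m : ℕ} {p y1 y2 y3 : ℤ} (h0 : del p y1 y2 y3 ≠ 0) {l : ℕ} :
    l ∈ SS m p y1 y2 y3 ↔ l.Prime ∧ (l : ℤ) ∣ del p y1 y2 y3 ∧ ¬ l ∣ m ∧ ¬ (l : ℤ) ∣ p := by
  unfold SS
  rw [mem_filter, Nat.mem_primeFactors]
  have e : (l : ℤ) ∣ del p y1 y2 y3 ↔ l ∣ (del p y1 y2 y3).natAbs := Int.natCast_dvd
  rw [e]
  have h0' : (del p y1 y2 y3).natAbs ≠ 0 := Int.natAbs_ne_zero.mpr h0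
  tauto

private theorem cov_not_dvd {m : ℕ} {p y1 y2 y3 : ℤ} (h0 : del p y1 y2 y3 ≠ 0) {l : ℕ}
    (hl : l ∈ SS m p y1 y2 y3) : ¬ (l : ℤ) ∣ y1 := by
  rw [cov_mem h0] at hl
  obtain ⟨hp, hd, -, hn⟩ := hl
  intro hy
  apply hn
  have h2 : (l : ℤ) ∣ y1 * y2 * y3 := (hy.mul_right y2).mul_right y3
  have h3 : (l : ℤ) ∣ p ^ 3 := by
    have : p ^ 3 = y1 * y2 * y3 - del p y1 y2 y3 := by unfold del; ring
    rw [this]
    exact dvd_sub h2 hd
  exact (Nat.prime_iff_prime_int.mp hp).dvd_of_dvd_pow h3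

private theorem cov_log_ww {z : ℝ} (i : ℕ) : Real.log (ww z i) = Real.log z / 2 ^ (i + 1) := by
  unfold ww
  rw [Real.log_exp]

private theorem cov_fin {T c2 : ℝ} (hT : 1 < T) (hc : 0 < c2) {m : ℕ} {p y1 y2 y3 : ℤ}
    (h0 : del p y1 y2 y3 ≠ 0) (h1 : ((|del p y1 y2 y3| : ℤ) : ℝ) ≤ T ^ 8)
    {S' : Finset ℕ} (hS' : S' ⊆ SS m p y1 y2 y3) (i : ℕ) (hi : (i : ℝ) ≤ 2 * Real.log (T ^ c2))
    (hbig : ∀ l ∈ SS m p y1 y2 y3, l ∉ S' → ww (T ^ c2) i < (l : ℝ))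
    (hAA : ∀ a : ℕ, a = ∏ l ∈ S', l → Squarefree a → a.primeFactors = S' → a ∈ AA (T ^ c2) i) :
    ∃ i : ℕ, (i : ℝ) ≤ 2 * Real.log (T ^ c2) ∧ ∃ a ∈ AA (T ^ c2) i, Nat.Coprime a m ∧
      IsCoprime (a : ℤ) p ∧ Cnd a m (ww (T ^ c2) i) p y1 y2 y3 ∧
      (ff m p y1 y2 y3 : ℝ) ≤ (3 : ℝ) ^ (16 / c2 * 2 ^ i) * rr a y1 y2 := by
  have hpr : ∀ l ∈ SS m p y1 y2 y3, l.Prime := fun l hl => ((cov_mem h0).mp hl).1
  have hpr' : ∀ l ∈ S', l.Prime := fun l hl => hpr l (hS' hl)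
  have hpf : (∏ l ∈ S', l : ℕ).primeFactors = S' := Nat.primeFactors_prod hpr'
  have hD0 : (del p y1 y2 y3).natAbs ≠ 0 := Int.natAbs_ne_zero.mpr h0
  have hsubD : SS m p y1 y2 y3 ⊆ (del p y1 y2 y3).natAbs.primeFactors := filter_subset _ _
  have hdvd : ∀ U : Finset ℕ, U ⊆ SS m p y1 y2 y3 →
      (∏ l ∈ U, l : ℕ) ∣ (del p y1 y2 y3).natAbs := by
    intro U hU
    exact (prod_dvd_prod_of_subset _ _ _ (hU.trans hsubD)).trans (Nat.prod_primeFactors_dvd _)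
  have hsq : Squarefree (∏ l ∈ S', l : ℕ) := by
    refine Finset.squarefree_prod_of_pairwise_isCoprime ?_ (fun l hl => (hpr' l hl).prime.squarefree)
    intro l hl l' hl' hne
    show IsRelPrime l l'
    rw [← Nat.coprime_iff_isRelPrime]
    exact (Nat.coprime_primes (hpr' l hl) (hpr' l' hl')).mpr hne
  refine ⟨i, hi, ∏ l ∈ S', l, hAA _ rfl hsq hpf, ?_, ?_, ?_, ?_⟩
  · refine Nat.Coprime.prod_left (fun l hl => ?_)
    have := (cov_mem h0).mp (hS' hl)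
    exact (Nat.Prime.coprime_iff_not_dvd this.1).mpr this.2.2.1
  · push_cast
    refine IsCoprime.prod_left (fun l hl => ?_)
    have h2 := (cov_mem h0).mp (hS' hl)
    rw [Int.isCoprime_iff_gcd_eq_one]
    have h3 : Nat.Coprime l p.natAbs :=
      (Nat.Prime.coprime_iff_not_dvd h2.1).mpr (fun h => h2.2.2.2 (Int.natCast_dvd.mpr h))
    exact h3
  · refine ⟨?_, ?_⟩
    · rw [Int.natCast_dvd]
      exact hdvd S' hS'
    · intro l hl hld hlm hla hlp
      apply hbig l ((cov_mem h0).mpr ⟨hl, hld, hlm, hlp⟩)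
      intro hlS
      exact hla (dvd_prod_of_mem _ hlS)
  · -- the bound
    have hlogT : 0 < Real.log T := Real.log_pos hT
    have hT0 : 0 < T := by linarith
    set U : Finset ℕ := SS m p y1 y2 y3 \ S' with hU
    have hUS : U ⊆ SS m p y1 y2 y3 := sdiff_subset
    have hlogz : Real.log (T ^ c2) = c2 * Real.log T := Real.log_rpow hT0 c2
    have hww : Real.log (ww (T ^ c2) i) = c2 * Real.log T / 2 ^ (i + 1) := by
      rw [cov_log_ww, hlogz]
    have hcard : (U.card : ℝ) ≤ 16 / c2 * 2 ^ i := by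
      have e1 : (U.card : ℝ) * Real.log (ww (T ^ c2) i) ≤ ∑ l ∈ U, Real.log (l : ℝ) := by
        rw [← nsmul_eq_mul, ← sum_const]
        refine sum_le_sum (fun l hl => ?_)
        have hl2 := mem_sdiff.mp hl
        exact Real.log_le_log (by unfold ww; exact Real.exp_pos _) (hbig l hl2.1 hl2.2).le
      have e2 : ∑ l ∈ U, Real.log (l : ℝ) = Real.log ((∏ l ∈ U, l : ℕ) : ℝ) := by
        rw [Nat.cast_prod, Real.log_prod]
        intro l hl
        have := (hpr l (hUS hl)).pos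
        positivity
      have e3 : ((∏ l ∈ U, l : ℕ) : ℝ) ≤ T ^ 8 := by
        have h3 : (∏ l ∈ U, l : ℕ) ≤ (del p y1 y2 y3).natAbs :=
          Nat.le_of_dvd (Nat.pos_of_ne_zero hD0) (hdvd U hUS)
        have h4 : (((del p y1 y2 y3).natAbs : ℕ) : ℝ) = ((|del p y1 y2 y3| : ℤ) : ℝ) := by
          rw [Nat.cast_natAbs]
        calc ((∏ l ∈ U, l : ℕ) : ℝ) ≤ (((del p y1 y2 y3).natAbs : ℕ) : ℝ) := by exact_mod_cast h3
          _ = _ := h4
          _ ≤ _ := h1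
      have e4 : Real.log ((∏ l ∈ U, l : ℕ) : ℝ) ≤ 8 * Real.log T := by
        have hpos : 0 < ((∏ l ∈ U, l : ℕ) : ℝ) := by
          exact_mod_cast prod_pos (fun l hl => (hpr l (hUS hl)).pos)
        calc Real.log ((∏ l ∈ U, l : ℕ) : ℝ) ≤ Real.log (T ^ 8) := Real.log_le_log hpos e3
          _ = 8 * Real.log T := by rw [Real.log_pow]; norm_num
      have e5 : (U.card : ℝ) * (c2 * Real.log T / 2 ^ (i + 1)) ≤ 8 * Real.log T := by
        rw [← hww]
        linarith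
      have e6 : (U.card : ℝ) * c2 ≤ 8 * 2 ^ (i + 1) := by
        have h2 : (0 : ℝ) < 2 ^ (i + 1) := by positivity
        have h3 : (U.card : ℝ) * (c2 * Real.log T / 2 ^ (i + 1)) =
            ((U.card : ℝ) * c2) * Real.log T / 2 ^ (i + 1) := by ring
        rw [h3, div_le_iff₀ h2] at e5
        have h4 : ((U.card : ℝ) * c2) * Real.log T ≤ (8 * 2 ^ (i + 1)) * Real.log T := by
          linarith
        exact le_of_mul_le_mul_right h4 hlogT
      have e7 : 16 / c2 * 2 ^ i = 8 * 2 ^ (i + 1) / c2 := by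
        rw [pow_succ]; ring
      rw [e7, le_div_iff₀ hc]
      exact e6
    have hff : ff m p y1 y2 y3 = rr (∏ l ∈ S', l) y1 y2 * ∏ l ∈ U, rr l y1 y2 := by
      unfold ff
      rw [← rr_prod S' hpr', hU, mul_comm]
      exact (prod_sdiff hS').symm
    have hU3 : ∏ l ∈ U, rr l y1 y2 ≤ 3 ^ U.card := by
      calc ∏ l ∈ U, rr l y1 y2 ≤ ∏ _l ∈ U, 3 :=
            prod_le_prod' (fun l hl => rr_le (hpr l (hUS hl)) y2 (cov_not_dvd h0 (hUS hl)))
        _ = 3 ^ U.card := by rw [prod_const]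
    have hU4 : ((∏ l ∈ U, rr l y1 y2 : ℕ) : ℝ) ≤ (3 : ℝ) ^ (16 / c2 * 2 ^ i) := by
      calc ((∏ l ∈ U, rr l y1 y2 : ℕ) : ℝ) ≤ ((3 ^ U.card : ℕ) : ℝ) := by exact_mod_cast hU3
        _ = (3 : ℝ) ^ (U.card : ℝ) := by rw [Real.rpow_natCast]; push_cast; rfl
        _ ≤ (3 : ℝ) ^ (16 / c2 * 2 ^ i) :=
            Real.rpow_le_rpow_of_exponent_le (by norm_num) hcard
    rw [hff, Nat.cast_mul, mul_comm]
    exact mul_le_mul_of_nonneg_right hU4 (Nat.cast_nonneg _)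

theorem cover {T c2 : ℝ} (hT : 1 < T) (hc : 0 < c2) {m : ℕ} (hm : 1 ≤ m) {p y1 y2 y3 : ℤ}
    (h0 : del p y1 y2 y3 ≠ 0) (h1 : ((|del p y1 y2 y3| : ℤ) : ℝ) ≤ T ^ 8) :
    ∃ i : ℕ, (i : ℝ) ≤ 2 * Real.log (T ^ c2) ∧ ∃ a ∈ AA (T ^ c2) i, Nat.Coprime a m ∧
      IsCoprime (a : ℤ) p ∧ Cnd a m (ww (T ^ c2) i) p y1 y2 y3 ∧
      (ff m p y1 y2 y3 : ℝ) ≤ (3 : ℝ) ^ (16 / c2 * 2 ^ i) * rr a y1 y2 := by
  have hT0 : 0 < T := by linarith
  have hz1 : 1 < T ^ c2 := Real.one_lt_rpow hT hc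
  have hpr : ∀ l ∈ SS m p y1 y2 y3, l.Prime := fun l hl => ((cov_mem h0).mp hl).1
  have hlz : 0 < Real.log (T ^ c2) := Real.log_pos hz1
  have hi0 : ((0 : ℕ) : ℝ) ≤ 2 * Real.log (T ^ c2) := by
    rw [Nat.cast_zero]; linarith
  have hmem0 : ∀ a : ℕ, Squarefree a → (a : ℝ) ≤ T ^ c2 → a ∈ AA (T ^ c2) 0 := by
    intro a hsq ha
    unfold AA
    rw [mem_filter, mem_Icc]
    exact ⟨⟨Nat.one_le_iff_ne_zero.mpr hsq.ne_zero, Nat.le_floor ha⟩, hsq⟩
  rcases pfx (SS m p y1 y2 y3) (T ^ c2) hz1.le with hA | ⟨q, hq, hA, hB⟩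
  · refine cov_fin hT hc h0 h1 (subset_refl _) 0 hi0 (fun l hl hn => absurd hl hn) ?_
    intro a ha hsq _
    exact hmem0 a hsq (by rw [ha]; exact hA)
  · have hq2 : 2 ≤ q := (hpr q hq).two_le
    have hq2r : (2 : ℝ) ≤ q := by exact_mod_cast hq2
    have hsub : (SS m p y1 y2 y3).filter (fun l => l < q) ⊆ SS m p y1 y2 y3 := filter_subset _ _
    have hgeq : ∀ l ∈ SS m p y1 y2 y3, l ∉ (SS m p y1 y2 y3).filter (fun l => l < q) →
        (q : ℝ) ≤ (l : ℝ) := by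
      intro l hl hn
      rw [mem_filter] at hn
      have : ¬ l < q := fun h => hn ⟨hl, h⟩
      exact_mod_cast not_lt.mp this
    rcases lt_or_ge (ww (T ^ c2) 0) (q : ℝ) with hc0 | hc0
    · refine cov_fin hT hc h0 h1 hsub 0 hi0 (fun l hl hn => lt_of_lt_of_le hc0 (hgeq l hl hn)) ?_
      intro a ha hsq _
      exact hmem0 a hsq (by rw [ha]; exact hA)
    · have hl2 : 0 < Real.log 2 := Real.log_pos (by norm_num)
      have hex : ∃ i : ℕ, ww (T ^ c2) i < (q : ℝ) := by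
        obtain ⟨i, hi⟩ := exists_nat_gt (Real.log (T ^ c2) / Real.log 2)
        refine ⟨i, lt_of_lt_of_le ?_ hq2r⟩
        unfold ww
        rw [← Real.exp_log (show (0 : ℝ) < 2 by norm_num)]
        rw [Real.exp_lt_exp, Real.exp_log (show (0 : ℝ) < 2 by norm_num)]
        rw [div_lt_iff₀ hl2] at hi
        have h2 : (0 : ℝ) < 2 ^ (i + 1) := by positivity
        rw [div_lt_iff₀ h2]
        have h3 : (i : ℝ) ≤ 2 ^ (i + 1) := by
          have : i < 2 ^ (i + 1) := lt_trans (Nat.lt_succ_self i) (Nat.lt_two_pow_self)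
          exact_mod_cast this.le
        nlinarith
      classical
      obtain ⟨i, hi, hmin⟩ : ∃ i : ℕ, ww (T ^ c2) i < (q : ℝ) ∧
          ∀ j < i, ¬ ww (T ^ c2) j < (q : ℝ) :=
        ⟨Nat.find hex, Nat.find_spec hex, fun j hj => Nat.find_min hex hj⟩
      obtain _ | k := i
      · exact absurd hi (not_lt.mpr hc0)
      · have hk : (q : ℝ) ≤ ww (T ^ c2) k := not_lt.mp (hmin k (Nat.lt_succ_self k))
        have hi2 : (((k + 1 : ℕ)) : ℝ) ≤ 2 * Real.log (T ^ c2) := by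
          have e1 : Real.log 2 ≤ Real.log (T ^ c2) / 2 ^ (k + 1) := by
            rw [← cov_log_ww]
            exact Real.log_le_log (by norm_num) (hq2r.trans hk)
          have h2 : (0 : ℝ) < 2 ^ (k + 1) := by positivity
          rw [le_div_iff₀ h2] at e1
          have h3 : ((k + 1 : ℕ) : ℝ) ≤ 2 ^ (k + 1) := by
            have : k + 1 < 2 ^ (k + 1) := Nat.lt_two_pow_self
            exact_mod_cast this.le
          have h4 : (1 : ℝ) / 2 ≤ Real.log 2 := by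
            have := Real.log_two_gt_d9
            linarith
          nlinarith
        refine cov_fin hT hc h0 h1 hsub (k + 1) hi2
          (fun l hl hn => lt_of_lt_of_le hi (hgeq l hl hn)) ?_
        intro a ha hsq hpf
        rw [← ha] at hA hB
        have hsqrt : ww (T ^ c2) 0 = Real.sqrt (T ^ c2) := by
          unfold ww
          rw [zero_add, pow_one, Real.exp_half, Real.exp_log (by linarith)]
        unfold AA
        rw [mem_filter, mem_Icc]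
        refine ⟨⟨Nat.one_le_iff_ne_zero.mpr hsq.ne_zero, Nat.le_floor hA⟩, hsq, ?_, ?_⟩
        · have hs0 : 0 < Real.sqrt (T ^ c2) := Real.sqrt_pos.mpr (by linarith)
          have hss : Real.sqrt (T ^ c2) * Real.sqrt (T ^ c2) = T ^ c2 :=
            Real.mul_self_sqrt (by linarith)
          have h5 : (a : ℝ) * q ≤ (a : ℝ) * Real.sqrt (T ^ c2) := by
            rw [← hsqrt]
            exact mul_le_mul_of_nonneg_left hc0 (Nat.cast_nonneg a)
          have h6 : Real.sqrt (T ^ c2) * Real.sqrt (T ^ c2) < (a : ℝ) * Real.sqrt (T ^ c2) := by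
            rw [hss]; linarith
          exact lt_of_mul_lt_mul_right h6 hs0.le
        · intro l hl
          rw [hpf, mem_filter] at hl
          have : (l : ℝ) ≤ q := by exact_mod_cast hl.2.le
          linarith

end Pool.Agent.PPS
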