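import Mathlib

/-!
# PP3 part (4), the Shiu lemma: definitions (MP_0f260b_nt)

See `/team-store/notes_MP_0f260b_nt_PP3_part4.md`.
-/

set_option autoImplicit false

namespace Pool.Agent.PPS

open Finset

/-- number of `t` modulo `a` with `t ^ 3 * y1 = y2` modulo `a` -/
def rr (a : ℕ) (y1 y2 : ℤ) : ℕ :=
  ((range a).filter (fun t : ℕ => (a : ℤ) ∣ (t : ℤ) ^ 3 * y1 - y2)).card

/-- `n / φ(n)` -/
noncomputable def gg (n : ℕ) : ℝ := ∏ l ∈ n.primeFactors, (1 - 1 / (l : ℝ))⁻¹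

/-- `Δ` -/
def del (p y1 y2 y3 : ℤ) : ℤ := y1 * y2 * y3 - p ^ 3

/-- the primes dividing `Δ` but not `m p` -/
def SS (m : ℕ) (p y1 y2 y3 : ℤ) : Finset ℕ :=
  (del p y1 y2 y3).natAbs.primeFactors.filter (fun l => ¬ l ∣ m ∧ ¬ (l : ℤ) ∣ p)

/-- the weight: number of cube roots modulo all primes dividing `Δ` but not `m p` -/
def ff (m : ℕ) (p y1 y2 y3 : ℤ) : ℕ := ∏ l ∈ SS m p y1 y2 y3, rr l y1 y2

/-- the nonzero integers of the interval `[A, A + H)` in the class `r` modulo `m` -/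
noncomputable def II (A : ℤ) (H m : ℕ) (r : ℤ) : Finset ℤ :=
  (Ico A (A + H)).filter (fun x => (m : ℤ) ∣ x - r ∧ x ≠ 0)

open Classical in
/-- the values of `y3` -/
noncomputable def JJ (T : ℝ) (j : ℤ) (L m : ℕ) (r p y1 y2 : ℤ) : Finset ℤ :=
  (Ico j (j + L)).filter
    (fun y3 => (m : ℤ) ∣ y3 - r ∧ del p y1 y2 y3 ≠ 0 ∧ ((|del p y1 y2 y3| : ℤ) : ℝ) ≤ T ^ 8)

/-- the thresholds `z ^ (1 / 2 ^ (i + 1))` -/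
noncomputable def ww (z : ℝ) (i : ℕ) : ℝ := Real.exp (Real.log z / 2 ^ (i + 1))

open Classical in
/-- the prefixes: `A_0` is the set of squarefree `a ≤ z`; `A_(i+1)` is the set of squarefree
`a ≤ z` above `√z` all of whose prime factors are at most `z ^ (1 / 2 ^ (i + 1))` -/
noncomputable def AA (z : ℝ) : ℕ → Finset ℕ
  | 0 => (Icc 1 ⌊z⌋₊).filter Squarefree
  | (i + 1) => (Icc 1 ⌊z⌋₊).filter (fun a => Squarefree a ∧ Real.sqrt z < a ∧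
        ∀ l ∈ a.primeFactors, (l : ℝ) ≤ ww z i)

/-- the condition on `y3` for a prefix `a` with threshold `w` -/
def Cnd (a m : ℕ) (w : ℝ) (p y1 y2 y3 : ℤ) : Prop :=
  (a : ℤ) ∣ del p y1 y2 y3 ∧ ∀ l : ℕ, l.Prime → (l : ℤ) ∣ del p y1 y2 y3 → ¬ l ∣ m → ¬ l ∣ a →
    ¬ (l : ℤ) ∣ p → w < l

/-- THE CORE LEMMA -/
def CoreS : Prop := ∃ c C T0 : ℝ, 0 < c ∧ 0 < C ∧ 2 ≤ T0 ∧ ∀ T : ℝ, T0 ≤ T →
  ∀ m : ℕ, 1 ≤ m → (m : ℝ) ≤ T ^ c → ∀ (r0 r1 r2 r3 A0 A1 A2 : ℤ) (H0 H1 H2 L : ℕ)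
    (j : ℤ → ℤ → ℤ → ℤ),
    Real.sqrt T ≤ H0 → Real.sqrt T ≤ H1 → Real.sqrt T ≤ H2 → Real.sqrt T ≤ L →
    (∀ x ∈ Ico A0 (A0 + H0), ((|x| : ℤ) : ℝ) ≤ T ^ 2) →
    (∀ x ∈ Ico A1 (A1 + H1), ((|x| : ℤ) : ℝ) ≤ T ^ 2) →
    (∀ x ∈ Ico A2 (A2 + H2), ((|x| : ℤ) : ℝ) ≤ T ^ 2) →
    ∑ p ∈ II A0 H0 m r0, ∑ y1 ∈ II A1 H1 m r1, ∑ y2 ∈ II A2 H2 m r2,
      ∑ y3 ∈ JJ T (j p y1 y2) L m r3 p y1 y2, (ff m p y1 y2 y3 : ℝ) ≤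
      C * gg m ^ 4 * (H0 * H1 * H2 * L / (m : ℝ) ^ 4)

end Pool.Agent.PPS
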